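import Pool.Agent.Frz.Comb.Targets

/-! AA: comparison of the heights in the increasing convex order. -/

set_option autoImplicit false

namespace Frz.Comb

open Finset

namespace AA_

theorem shift_sum (f : ℕ → ℝ) (h0 : f 0 = 0) (j M : ℕ) (hj : j ≤ M) (hM : 1 ≤ M) :
    ∑ h ∈ Ico j M, f h = ∑ h ∈ Ico (j - 1) (M - 1), f (h + 1) := by
  obtain ⟨M', rfl⟩ : ∃ M', M = M' + 1 := ⟨M - 1, by omega⟩
  rcases Nat.eq_zero_or_pos j with rfl | hj'
  · rw [Finset.sum_eq_sum_Ico_succ_bot (by omega), h0, zero_add, Nat.add_sub_cancel, Nat.zero_sub,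
      Finset.sum_Ico_add' f 0 M' 1]
  · obtain ⟨j', rfl⟩ : ∃ j', j = j' + 1 := ⟨j - 1, by omega⟩
    rw [Nat.add_sub_cancel, Nat.add_sub_cancel, Finset.sum_Ico_add' f j' M' 1]

theorem list_group {α : Type} (l : List α) (N : α → ℝ) (cnt : α → ℕ) (g : ℕ → ℝ) (t : ℕ)
    (h : ∀ a ∈ l, cnt a ≤ t) :
    (l.map (fun a => N a * g (cnt a))).sum =
      ∑ p ∈ range (t + 1), (l.map (fun a => if cnt a = p then N a else 0)).sum * g p := by
  induction l with
  | nil => simp
  | cons a l ih =>
    rw [List.map_cons, List.sum_cons, ih (fun b hb => h b (List.mem_cons_of_mem _ hb))]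
    have h1 : N a * g (cnt a) = ∑ p ∈ range (t + 1), (if cnt a = p then N a else 0) * g p := by
      rw [Finset.sum_eq_single (cnt a)]
      · rw [if_pos rfl]
      · intro b _ hb
        rw [if_neg (fun e => hb e.symm), zero_mul]
      · intro hn
        exact absurd (mem_range.mpr (Nat.lt_succ_of_le (h a List.mem_cons_self))) hn
    rw [h1, ← Finset.sum_add_distrib]
    refine Finset.sum_congr rfl fun p _ => ?_
    rw [List.map_cons, List.sum_cons, add_mul]

theorem list_le {α : Type} (l : List α) (f g : α → ℝ) (h : ∀ a ∈ l, f a ≤ g a) :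
    (l.map f).sum ≤ (l.map g).sum := by
  induction l with
  | nil => simp
  | cons a l ih =>
    rw [List.map_cons, List.map_cons, List.sum_cons, List.sum_cons]
    exact add_le_add (h a List.mem_cons_self) (ih (fun b hb => h b (List.mem_cons_of_mem _ hb)))

theorem list_exch {α : Type} (l : List α) (s : Finset ℕ) (f : ℕ → α → ℝ) :
    ∑ h ∈ s, (l.map (f h)).sum = (l.map (fun a => ∑ h ∈ s, f h a)).sum := by
  induction l with
  | nil => simp
  | cons a l ih =>
    rw [List.map_cons, List.sum_cons, ← ih, ← Finset.sum_add_distrib]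
    refine Finset.sum_congr rfl fun h _ => ?_
    rw [List.map_cons, List.sum_cons]

theorem cast_sum {α : Type} (l : List α) (f : α → ℕ) :
    (((l.map f).sum : ℕ) : ℝ) = (l.map (fun a => (f a : ℝ))).sum := by
  induction l with
  | nil => simp
  | cons a l ih =>
    rw [List.map_cons, List.sum_cons, List.map_cons, List.sum_cons, Nat.cast_add, ih]

theorem CC_mono (hB : T_CCB) (x : List Bool) : Monotone (fun k => CC k x) := by
  refine monotone_nat_of_le_succ fun k => ?_
  rcases Nat.eq_zero_or_pos k with rfl | hk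
  · simp [CC]
  · obtain ⟨k', rfl⟩ : ∃ k', k = k' + 1 := ⟨k - 1, by omega⟩
    have h := hB.1 x {k'}
    rw [Multiset.map_singleton] at h
    simpa [CC] using h

theorem CC_le (hB : T_CCB) (k : ℕ) (x : List Bool) : CC k x ≤ NN x 1 := by
  unfold CC
  split_ifs with h
  · exact Nat.zero_le _
  · simpa using hB.2.1 x {k - 1}

theorem FF_nonneg (k n : ℕ) : 0 ≤ FF k n := by
  unfold FF
  positivity

theorem FF_mono (hB : T_CCB) (n : ℕ) : Monotone (fun k => FF k n) := by
  intro a b hab
  unfold FF
  have h : CC a (List.replicate n true) ≤ CC b (List.replicate n true) := CC_mono hB _ hab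
  have h' : (CC a (List.replicate n true) : ℝ) ≤ CC b (List.replicate n true) := by
    exact_mod_cast h
  show (CC a (List.replicate n true) : ℝ) / _ ≤ (CC b (List.replicate n true) : ℝ) / _
  exact div_le_div_of_nonneg_right h' (Nat.cast_nonneg _)

theorem NN_zero (y : List Bool) (hy : y ≠ []) : NN y 0 = 0 := by
  cases y with
  | nil => exact absurd rfl hy
  | cons c y => cases c <;> simp [NN]

/-- one term of the sum over the splits -/
theorem term (hB : T_CCB) (hR : Rec FF) (hAb : T_ABEL) (a b : List Bool) (c M : ℕ) (hc : c ≤ M)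
    (hM : a.count true + b.count true + 1 ≤ M)
    (iha : ∀ c ≤ M, ∑ h ∈ Ico c M, (CC (h + 1) a : ℝ) ≤
      NN a 1 * ∑ h ∈ Ico c M, FF (h + 1) (a.count true))
    (ihb : ∀ c ≤ M - 1, ∑ h ∈ Ico c (M - 1), (CC (h + 1) b : ℝ) ≤
      NN b 1 * ∑ h ∈ Ico c (M - 1), FF (h + 1) (b.count true)) :
    ∑ h ∈ Ico c M, (CC (h + 1) a : ℝ) * (CC h b : ℝ) ≤
      ((NN a 1 : ℝ) * (NN b 1 : ℝ)) *
        ∑ h ∈ Ico c M, FF (h + 1) (a.count true) * FF h (b.count true) := by
  have h := hAb c M (fun h => (CC (h + 1) a : ℝ)) (fun h => (CC h b : ℝ))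
    (fun h => (NN a 1 : ℝ) * FF (h + 1) (a.count true))
    (fun h => (NN b 1 : ℝ) * FF h (b.count true)) hc
    (fun h => Nat.cast_nonneg _)
    (fun i j hij => by
      show ((CC (i + 1) a : ℕ) : ℝ) ≤ ((CC (j + 1) a : ℕ) : ℝ)
      exact_mod_cast CC_mono hB a (by omega : i + 1 ≤ j + 1))
    (fun h => mul_nonneg (Nat.cast_nonneg _) (FF_nonneg _ _))
    (fun i j hij => mul_le_mul_of_nonneg_left (FF_mono hB _ hij) (Nat.cast_nonneg _))
    (fun j hj1 hj2 => by
      rw [← Finset.mul_sum]
      exact iha j hj2)
    (fun j hj1 hj2 => by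
      rw [← Finset.mul_sum, shift_sum (fun h => (CC h b : ℝ)) (by simp [CC]) j M hj2 (by omega),
        shift_sum (fun h => FF h (b.count true)) (hR.1 _) j M hj2 (by omega)]
      exact ihb (j - 1) (by omega))
  refine h.trans (le_of_eq ?_)
  rw [Finset.mul_sum]
  refine Finset.sum_congr rfl fun h _ => ?_
  ring

end AA_

open AA_ in
/-- AA -/
theorem pAA : T_SPL → T_CCB → T_RR → T_ABEL → T_CONV → T_W → T_AA := by
  intro hS hB hRR hAb hCV hW
  have hR : Rec FF := hRR.1
  have main : ∀ (n : ℕ) (x : List Bool), x.length = n → ∀ c M : ℕ, c ≤ M → x.count true ≤ M →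
      ∑ h ∈ Ico c M, (CC (h + 1) x : ℝ) ≤ NN x 1 * ∑ h ∈ Ico c M, FF (h + 1) (x.count true) := by
    intro n
    induction n using Nat.strong_induction_on with
    | _ n ih =>
      intro x hx c M hc hM
      match x, hx, hM with
      | [], _, _ =>
        have e1 : ∀ h, CC (h + 1) [] = 1 := fun h => by simp [CC, cc]
        have e2 : ∀ h, FF (h + 1) 0 = 1 := hR.2.1
        simp [e1, e2, NN]
      | false :: y, hx, hM =>
        by_cases hy : y = []
        · subst hy
          have e1 : ∀ h, CC (h + 1) [false] = 1 := fun h => by simp [CC, cc]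
          have e2 : ∀ h, FF (h + 1) 0 = 1 := hR.2.1
          simp [e1, e2, NN]
        · have e0 : NN (false :: y) 1 = 0 := by
            show 1 * NN y (1 - 1) = 0
            rw [Nat.sub_self, NN_zero y hy]
          have e1 : ∀ h, CC (h + 1) (false :: y) = 0 := fun h => by
            have := CC_le hB (h + 1) (false :: y)
            omega
          simp [e0, e1]
      | true :: y, hx, hM =>
        obtain ⟨t, ht⟩ : ∃ t, t = y.count true := ⟨_, rfl⟩
        have hcnt : (true :: y).count true = t + 1 := by
          rw [List.count_cons_self, ht]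
        rw [hcnt] at hM ⊢
        have hlen : y.length < n := by
          rw [List.length_cons] at hx
          omega
        obtain ⟨_, hsp, hsum⟩ := hS 0 y
        -- the sum over the splits
        have s1 : ∑ h ∈ Ico c M, (CC (h + 1) (true :: y) : ℝ) =
            ((spl y).map (fun ab => ∑ h ∈ Ico c M,
              (CC (h + 1) ab.1 : ℝ) * (CC h ab.2 : ℝ))).sum := by
          rw [← list_exch]
          refine Finset.sum_congr rfl fun h _ => ?_
          rw [(hS h y).1, cast_sum]
          simp only [Nat.cast_mul]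
        obtain ⟨g, hg⟩ : ∃ g : ℕ → ℝ, g = fun p => ∑ h ∈ Ico c M, FF (h + 1) p * FF h (t - p) :=
          ⟨_, rfl⟩
        have s2 : ((spl y).map (fun ab => ∑ h ∈ Ico c M,
              (CC (h + 1) ab.1 : ℝ) * (CC h ab.2 : ℝ))).sum ≤
            ((spl y).map (fun ab => ((NN ab.1 1 : ℝ) * (NN ab.2 1 : ℝ)) *
              g (ab.1.count true))).sum := by
          refine list_le _ _ _ fun ab hab => ?_
          obtain ⟨c1, c2⟩ := hsp ab hab
          have e : t - ab.1.count true = ab.2.count true := by omega
          rw [hg]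
          show _ ≤ _ * ∑ h ∈ Ico c M, FF (h + 1) (ab.1.count true) * FF h (t - ab.1.count true)
          rw [e]
          exact term hB hR hAb ab.1 ab.2 c M hc (by omega)
            (fun c hc => ih ab.1.length (by omega) ab.1 rfl c M hc (by omega))
            (fun c hc => ih ab.2.length (by omega) ab.2 rfl c (M - 1) hc (by omega))
        have s3 : ((spl y).map (fun ab => ((NN ab.1 1 : ℝ) * (NN ab.2 1 : ℝ)) *
              g (ab.1.count true))).sum =
            ∑ p ∈ range (t + 1), (Np y p : ℝ) * g p := by
          rw [list_group (spl y) (fun ab => (NN ab.1 1 : ℝ) * (NN ab.2 1 : ℝ))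
            (fun ab => ab.1.count true) g t (fun ab hab => by
              have := (hsp ab hab).1
              omega)]
          refine Finset.sum_congr rfl fun p _ => ?_
          congr 1
          unfold Np
          rw [cast_sum]
          congr 1
          refine List.map_congr_left fun ab _ => ?_
          split_ifs <;> simp
        -- the analytic inequality
        obtain ⟨hsy, hcv⟩ := hCV y
        rw [← ht] at hsy hcv hsum
        have hw := hW FF hR t c M (fun i => (Np y i : ℝ)) (by omega)
          (fun i hi => by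
            show (Np y i : ℝ) = (Np y (t - i) : ℝ)
            rw [hsy i hi])
          (fun i h1 h2 => by
            show 2 * (Np y i : ℝ) ≤ (Np y (i - 1) : ℝ) + (Np y (i + 1) : ℝ)
            exact_mod_cast hcv i h1 h2)
        have hrefl : ∀ (w : ℕ → ℝ), (∀ i ≤ t, w i = w (t - i)) →
            ∑ i ∈ range (t + 1), w i * ∑ h ∈ Ico c M, (FF (h + 1) i * FF h (t - i) +
              FF (h + 1) (t - i) * FF h i) = 2 * ∑ i ∈ range (t + 1), w i * g i := by
          intro w hw'
          have r1 : ∑ i ∈ range (t + 1), w i * ∑ h ∈ Ico c M, (FF (h + 1) i * FF h (t - i) +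
              FF (h + 1) (t - i) * FF h i) = ∑ i ∈ range (t + 1), w i * g i +
              ∑ i ∈ range (t + 1), w i * ∑ h ∈ Ico c M, FF (h + 1) (t - i) * FF h i := by
            rw [← Finset.sum_add_distrib]
            refine Finset.sum_congr rfl fun i _ => ?_
            rw [Finset.sum_add_distrib, mul_add, hg]
          have r2 : ∑ i ∈ range (t + 1), w i * ∑ h ∈ Ico c M, FF (h + 1) (t - i) * FF h i =
              ∑ i ∈ range (t + 1), w i * g i := by
            rw [← Finset.sum_range_reflect]
            refine Finset.sum_congr rfl fun i hi => ?_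
            have hi' : i ≤ t := Nat.lt_succ_iff.mp (mem_range.mp hi)
            have e1 : t + 1 - 1 - i = t - i := by omega
            have e2 : t - (t - i) = i := by omega
            rw [e1, e2, ← hw' i hi', hg]
          rw [r1, r2]
          ring
        have hG : ∑ p ∈ range (t + 1), g p =
            ((t : ℝ) + 1) * ∑ h ∈ Ico c M, FF (h + 1) (t + 1) := by
          rw [hg, Finset.sum_comm, Finset.mul_sum]
          refine Finset.sum_congr rfl fun h _ => ?_
          rw [hR.2.2 h t]
        have hone := hrefl (fun _ => 1) (fun _ _ => rfl)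
        simp only [one_mul] at hone
        rw [hrefl (fun i => (Np y i : ℝ)) (fun i hi => by
            show (Np y i : ℝ) = (Np y (t - i) : ℝ)
            rw [hsy i hi]), hone, hG] at hw
        have hNp : ∑ i ∈ range (t + 1), (Np y i : ℝ) = (NN (true :: y) 1 : ℝ) := by
          rw [← hsum, Nat.cast_sum]
        rw [hNp] at hw
        have htp : (0 : ℝ) < 2 * ((t : ℝ) + 1) := by positivity
        rw [s1]
        refine s2.trans (s3.le.trans ?_)
        refine le_of_mul_le_mul_left ?_ htp
        nlinarith [hw]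
  intro x c M hc hM
  exact main x.length x rfl c M hc hM

end Frz.Comb
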