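import Pool.Agent.Frz.Comb.Targets

set_option autoImplicit false

namespace Frz.Comb

open Finset

namespace ABEL_

theorem abel (m : ℕ) : ∀ (c : ℕ) (D W : ℕ → ℝ), (∀ h, 0 ≤ W h) → Monotone W →
    (∀ j, c ≤ j → j ≤ c + m → 0 ≤ ∑ h ∈ Ico j (c + m), D h) →
    W c * ∑ h ∈ Ico c (c + m), D h ≤ ∑ h ∈ Ico c (c + m), D h * W h := by
  induction m with
  | zero => intro c D W _ _ _; simp
  | succ m ih =>
    intro c D W hW hmono hD
    have e : c + (m + 1) = c + 1 + m := by omega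
    rw [e] at hD ⊢
    have h1 := ih (c + 1) D W hW hmono (fun j hj1 hj2 => hD j (by omega) hj2)
    have h2 := hD (c + 1) (by omega) (by omega)
    rw [Finset.sum_eq_sum_Ico_succ_bot (by omega : c < c + 1 + m),
      Finset.sum_eq_sum_Ico_succ_bot (by omega : c < c + 1 + m)]
    have h3 : W c ≤ W (c + 1) := hmono (by omega)
    have h4 : W c * ∑ h ∈ Ico (c + 1) (c + 1 + m), D h ≤
        W (c + 1) * ∑ h ∈ Ico (c + 1) (c + 1 + m), D h := mul_le_mul_of_nonneg_right h3 h2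
    linarith

theorem nonneg (c M : ℕ) (hc : c ≤ M) (D W : ℕ → ℝ) (hW : ∀ h, 0 ≤ W h) (hmono : Monotone W)
    (hD : ∀ j, c ≤ j → j ≤ M → 0 ≤ ∑ h ∈ Ico j M, D h) : 0 ≤ ∑ h ∈ Ico c M, D h * W h := by
  obtain ⟨m, rfl⟩ : ∃ m, M = c + m := ⟨M - c, by omega⟩
  have h := abel m c D W hW hmono hD
  exact le_trans (mul_nonneg (hW c) (hD c le_rfl (by omega))) h

end ABEL_

theorem pABEL : T_ABEL := by
  intro c M A B F G hc hA hAm hG hGm h1 h2
  have k1 := ABEL_.nonneg c M hc (fun h => F h - A h) G hG hGm (fun j hj1 hj2 => by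
    rw [Finset.sum_sub_distrib]; linarith [h1 j hj1 hj2])
  have k2 := ABEL_.nonneg c M hc (fun h => G h - B h) A hA hAm (fun j hj1 hj2 => by
    rw [Finset.sum_sub_distrib]; linarith [h2 j hj1 hj2])
  have e : ∑ h ∈ Ico c M, F h * G h - ∑ h ∈ Ico c M, A h * B h =
      ∑ h ∈ Ico c M, (F h - A h) * G h + ∑ h ∈ Ico c M, (G h - B h) * A h := by
    rw [← Finset.sum_sub_distrib, ← Finset.sum_add_distrib]
    apply Finset.sum_congr rfl
    intro h _
    ring
  linarith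

end Frz.Comb
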