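import Pool.Agent.Frz.Comb.Targets

/-!
# ADD: histories of the union of two groups of active vertices
-/

set_option autoImplicit false

namespace Frz.Comb

open Finset

namespace ADD_

theorem mul_left {β : Type} (l : List β) (c : ℕ) (g : β → ℕ) :
    (l.map (fun x => c * g x)).sum = c * (l.map g).sum := by
  induction l with
  | nil => simp
  | cons a l ih => rw [List.map_cons, List.sum_cons, ih, List.map_cons, List.sum_cons, mul_add]

theorem exch {β : Type} (D : Multiset ℕ) (l : List β) (g : ℕ → β → ℕ) :
    (D.map (fun b => (l.map (g b)).sum)).sum =
      (l.map (fun x => (D.map (fun b => g b x)).sum)).sum := by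
  induction l with
  | nil => simp
  | cons a l ih =>
    rw [List.map_cons, List.sum_cons, ← ih, ← Multiset.sum_map_add]
    rfl

theorem spl_sum (c : Bool) (y : List Bool) (f : List Bool × List Bool → ℕ) :
    ((spl (c :: y)).map f).sum =
      ((spl y).map (fun ab => f (c :: ab.1, ab.2))).sum +
        ((spl y).map (fun ab => f (ab.1, c :: ab.2))).sum := by
  show (((spl y).map (fun ab => (c :: ab.1, ab.2)) ++
      (spl y).map (fun ab => (ab.1, c :: ab.2))).map f).sum = _
  rw [List.map_append, List.sum_append, List.map_map, List.map_map]
  rfl

theorem nn (y : List Bool) : ∀ j k : ℕ,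
    NN y (j + k) = ((spl y).map (fun ab => NN ab.1 j * NN ab.2 k)).sum := by
  induction y with
  | nil =>
    intro j k
    simp [NN, spl]
  | cons c y ih =>
    intro j k
    rw [spl_sum]
    cases c with
    | true =>
      have e1 : ((spl y).map (fun ab : List Bool × List Bool =>
          NN (true :: ab.1) j * NN ab.2 k)).sum = j * NN y (j + 1 + k) := by
        rw [ih (j + 1) k, ← mul_left]
        congr 1
        refine List.map_congr_left fun ab _ => ?_
        show (j * NN ab.1 (j + 1)) * NN ab.2 k = _
        rw [mul_assoc]
      have e2 : ((spl y).map (fun ab : List Bool × List Bool =>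
          NN ab.1 j * NN (true :: ab.2) k)).sum = k * NN y (j + (k + 1)) := by
        rw [ih j (k + 1), ← mul_left]
        congr 1
        refine List.map_congr_left fun ab _ => ?_
        show NN ab.1 j * (k * NN ab.2 (k + 1)) = _
        ring
      show (j + k) * NN y (j + k + 1) = _
      rw [e1, e2, show j + 1 + k = j + k + 1 by ring, show j + (k + 1) = j + k + 1 by ring, add_mul]
    | false =>
      have e1 : ((spl y).map (fun ab : List Bool × List Bool =>
          NN (false :: ab.1) j * NN ab.2 k)).sum = j * NN y (j - 1 + k) := by
        rw [ih (j - 1) k, ← mul_left]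
        congr 1
        refine List.map_congr_left fun ab _ => ?_
        show (j * NN ab.1 (j - 1)) * NN ab.2 k = _
        rw [mul_assoc]
      have e2 : ((spl y).map (fun ab : List Bool × List Bool =>
          NN ab.1 j * NN (false :: ab.2) k)).sum = k * NN y (j + (k - 1)) := by
        rw [ih j (k - 1), ← mul_left]
        congr 1
        refine List.map_congr_left fun ab _ => ?_
        show NN ab.1 j * (k * NN ab.2 (k - 1)) = _
        ring
      show (j + k) * NN y (j + k - 1) = _
      rw [e1, e2, add_mul]
      congr 1
      · rcases Nat.eq_zero_or_pos j with h | h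
        · rw [h, zero_mul, zero_mul]
        · rw [show j + k - 1 = j - 1 + k by omega]
      · rcases Nat.eq_zero_or_pos k with h | h
        · rw [h, zero_mul, zero_mul]
        · rw [show j + k - 1 = j + (k - 1) by omega]

theorem mulr (D : Multiset ℕ) (f : ℕ → ℕ) (c : ℕ) :
    (D.map f).sum * c = (D.map (fun b => f b * c)).sum := by
  rw [Multiset.sum_map_mul_right]

theorem mull (D : Multiset ℕ) (f : ℕ → ℕ) (c : ℕ) :
    c * (D.map f).sum = (D.map (fun b => c * f b)).sum := by
  rw [Multiset.sum_map_mul_left]

theorem ccadd (y : List Bool) : ∀ D D' : Multiset ℕ,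
    cc y (D + D') = ((spl y).map (fun ab => cc ab.1 D * cc ab.2 D')).sum := by
  induction y with
  | nil =>
    intro D D'
    simp [cc, spl]
  | cons c y ih =>
    intro D D'
    rw [spl_sum]
    cases c with
    | true =>
      show ((D + D').map (fun b => if b = 0 then 0 else cc y ((b - 1) ::ₘ (D + D')))).sum = _
      rw [Multiset.map_add, Multiset.sum_add]
      congr 1
      · have e1 : ∀ b, (if b = 0 then 0 else cc y ((b - 1) ::ₘ (D + D'))) =
            ((spl y).map (fun ab => (if b = 0 then 0 else cc ab.1 ((b - 1) ::ₘ D)) *
              cc ab.2 D')).sum := by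
          intro b
          by_cases hb : b = 0
          · subst hb
            simp
          · rw [if_neg hb, ← Multiset.cons_add, ih]
            congr 1
            refine List.map_congr_left fun ab _ => ?_
            rw [if_neg hb]
        rw [Multiset.map_congr rfl fun b _ => e1 b, exch]
        congr 1
        refine List.map_congr_left fun ab _ => ?_
        show _ = cc (true :: ab.1) D * cc ab.2 D'
        rw [← mulr]
        rfl
      · have e1 : ∀ b, (if b = 0 then 0 else cc y ((b - 1) ::ₘ (D + D'))) =
            ((spl y).map (fun ab => cc ab.1 D *
              (if b = 0 then 0 else cc ab.2 ((b - 1) ::ₘ D')))).sum := by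
          intro b
          by_cases hb : b = 0
          · subst hb
            simp
          · rw [if_neg hb, ← Multiset.add_cons, ih]
            congr 1
            refine List.map_congr_left fun ab _ => ?_
            rw [if_neg hb]
        rw [Multiset.map_congr rfl fun b _ => e1 b, exch]
        congr 1
        refine List.map_congr_left fun ab _ => ?_
        show _ = cc ab.1 D * cc (true :: ab.2) D'
        rw [← mull]
        rfl
    | false =>
      show ((D + D').map (fun b => cc y ((D + D').erase b))).sum = _
      rw [Multiset.map_add, Multiset.sum_add]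
      congr 1
      · have e1 : ∀ b ∈ D, cc y ((D + D').erase b) =
            ((spl y).map (fun ab => cc ab.1 (D.erase b) * cc ab.2 D')).sum := by
          intro b hb
          rw [Multiset.erase_add_left_pos _ hb, ih]
        rw [Multiset.map_congr rfl e1, exch]
        congr 1
        refine List.map_congr_left fun ab _ => ?_
        show _ = cc (false :: ab.1) D * cc ab.2 D'
        rw [← mulr]
        rfl
      · have e1 : ∀ b ∈ D', cc y ((D + D').erase b) =
            ((spl y).map (fun ab => cc ab.1 D * cc ab.2 (D'.erase b))).sum := by
          intro b hb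
          rw [Multiset.erase_add_right_pos _ hb, ih]
        rw [Multiset.map_congr rfl e1, exch]
        congr 1
        refine List.map_congr_left fun ab _ => ?_
        show _ = cc ab.1 D * cc (false :: ab.2) D'
        rw [← mull]
        rfl

end ADD_

/-- ADD -/
theorem pADD : T_ADD := ⟨ADD_.nn, ADD_.ccadd⟩

end Frz.Comb
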