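import Pool.Agent.Frz.Comb.Targets

/-!
# CCB: the counts `cc` are monotone, and equal to `NN` for large bounds
-/

set_option autoImplicit false

namespace Frz.Comb

open Finset

namespace CCB_

private theorem mono (y : List Bool) : ∀ D : Multiset ℕ, cc y D ≤ cc y (D.map (fun b => b + 1)) := by
  induction y with
  | nil => intro D; simp [cc]
  | cons c y ih =>
    intro D
    cases c with
    | true =>
      simp only [cc]
      rw [Multiset.map_map]
      apply Multiset.sum_map_le_sum_map
      intro b hb
      simp only [Function.comp_apply, Nat.add_eq_zero_iff, one_ne_zero, and_false, if_false,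
        Nat.add_sub_cancel]
      by_cases hb0 : b = 0
      · simp [hb0]
      · rw [if_neg hb0]
        refine (ih _).trans (le_of_eq ?_)
        rw [Multiset.map_cons]
        congr 2
        omega
    | false =>
      simp only [cc]
      rw [Multiset.map_map]
      apply Multiset.sum_map_le_sum_map
      intro b hb
      simp only [Function.comp_apply]
      refine (ih _).trans (le_of_eq ?_)
      rw [Multiset.map_erase _ (fun a b h => by simpa using h)]

private theorem le_NN (y : List Bool) : ∀ D : Multiset ℕ, cc y D ≤ NN y (Multiset.card D) := by
  induction y with
  | nil => intro D; simp [cc, NN]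
  | cons c y ih =>
    intro D
    cases c with
    | true =>
      simp only [cc, NN]
      refine (Multiset.sum_le_card_nsmul _ (NN y (Multiset.card D + 1)) ?_).trans (le_of_eq ?_)
      · intro x hx
        rw [Multiset.mem_map] at hx
        obtain ⟨b, hb, rfl⟩ := hx
        split_ifs
        · exact Nat.zero_le _
        · refine (ih _).trans (le_of_eq ?_)
          rw [Multiset.card_cons]
      · rw [Multiset.card_map, smul_eq_mul]
    | false =>
      simp only [cc, NN]
      refine (Multiset.sum_le_card_nsmul _ (NN y (Multiset.card D - 1)) ?_).trans (le_of_eq ?_)
      · intro x hx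
        rw [Multiset.mem_map] at hx
        obtain ⟨b, hb, rfl⟩ := hx
        refine (ih _).trans (le_of_eq ?_)
        rw [Multiset.card_erase_of_mem hb]
        rfl
      · rw [Multiset.card_map, smul_eq_mul]

private theorem sum_const_map (D : Multiset ℕ) (f : ℕ → ℕ) (c : ℕ) (h : ∀ b ∈ D, f b = c) :
    (D.map f).sum = Multiset.card D * c := by
  rw [Multiset.map_congr rfl h]
  simp

private theorem eq_NN (y : List Bool) : ∀ D : Multiset ℕ, (∀ b ∈ D, y.count true ≤ b) →
    cc y D = NN y (Multiset.card D) := by
  induction y with
  | nil => intro D _; simp [cc, NN]
  | cons c y ih =>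
    intro D hD
    cases c with
    | true =>
      simp only [cc, NN]
      apply sum_const_map
      intro b hb
      have h1 : y.count true + 1 ≤ b := by
        have := hD b hb
        simpa using this
      rw [if_neg (by omega), ih, Multiset.card_cons]
      intro a ha
      rw [Multiset.mem_cons] at ha
      rcases ha with rfl | ha
      · omega
      · have := hD a ha
        simp only [List.count_cons_self] at this
        omega
    | false =>
      simp only [cc, NN]
      apply sum_const_map
      intro b hb
      rw [ih, Multiset.card_erase_of_mem hb]
      · rfl
      · intro a ha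
        have := hD a (Multiset.mem_of_mem_erase ha)
        simpa using this

end CCB_

open CCB_ in
/-- CCB. -/
theorem pCCB : T_CCB := ⟨mono, le_NN, eq_NN⟩

end Frz.Comb
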