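import Pool.Agent.Frz.Comb.Targets

/-!
# CONV and SPL: the law of the split
-/

set_option autoImplicit false

namespace Frz.Comb

open Finset

namespace CONVSPL_

private theorem spl_mem : ∀ (y : List Bool), ∀ ab ∈ spl y,
    ab.1.count true + ab.2.count true = y.count true ∧ ab.1.length + ab.2.length = y.length := by
  intro y
  induction y with
  | nil =>
    intro ab hab
    simp only [spl, List.mem_singleton] at hab
    subst hab
    simp
  | cons c y ih =>
    intro ab hab
    simp only [spl, List.mem_append, List.mem_map] at hab
    rcases hab with ⟨x, hx, rfl⟩ | ⟨x, hx, rfl⟩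
    · obtain ⟨h1, h2⟩ := ih x hx
      simp only [List.count_cons, List.length_cons]
      constructor <;> omega
    · obtain ⟨h1, h2⟩ := ih x hx
      simp only [List.count_cons, List.length_cons]
      constructor <;> omega

private theorem exch {α : Type} (l : List α) (g f : α → ℕ) (N : ℕ) (h : ∀ x ∈ l, g x < N) :
    ∑ p ∈ range N, (l.map (fun x => if g x = p then f x else 0)).sum = (l.map f).sum := by
  induction l with
  | nil => simp
  | cons x l ih =>
    simp only [List.map_cons, List.sum_cons]
    rw [Finset.sum_add_distrib, ih (fun x hx => h x (List.mem_cons_of_mem _ hx))]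
    congr 1
    rw [Finset.sum_ite_eq (range N) (g x) (fun _ => f x),
      if_pos (mem_range.2 (h x List.mem_cons_self))]

end CONVSPL_

/-- CONV. -/
theorem pCONV : T_CVX → T_LINK → T_CONV := by
  intro hC hL y
  have hw := (hL y 0 (Nat.zero_le _)).1
  obtain ⟨h1, h2⟩ := hC y.length (lab y) (y.count true) hw
  constructor
  · intro p hp
    rw [(hL y p hp).2, (hL y (y.count true - p) (Nat.sub_le _ _)).2, h1 p hp]
    congr 3
    omega
  · intro p hp hp'
    rw [(hL y p (by omega)).2, (hL y (p - 1) (by omega)).2, (hL y (p + 1) hp').2]
    exact h2 p hp hp'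

open CONVSPL_ in
/-- SPL. -/
theorem pSPL : T_ADD → T_SPL := by
  intro hA k y
  refine ⟨?_, spl_mem y, ?_⟩
  · by_cases hk : k = 0
    · subst hk
      simp [CC, cc]
    · have e1 : CC (k + 1) (true :: y) = cc y ({k} + {k - 1}) := by
        simp only [CC, cc, Nat.add_eq_zero_iff, one_ne_zero, and_false, if_false,
          Nat.add_sub_cancel, Multiset.map_singleton, Multiset.sum_singleton, if_neg hk]
        congr 1
        rw [← Multiset.singleton_add, add_comm]
      rw [e1, hA.2]
      congr 1
      apply List.map_congr_left
      intro ab _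
      simp [CC, hk]
  · have e1 : NN (true :: y) 1 = NN y (1 + 1) := by simp [NN]
    rw [e1, hA.1]
    unfold Np
    rw [exch (spl y) (fun ab => ab.1.count true) (fun ab => NN ab.1 1 * NN ab.2 1)
      (y.count true + 1) (fun ab hab => by
        have := (spl_mem y ab hab).1
        omega)]

end Frz.Comb
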