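import Pool.Agent.Frz.Comb.Targets

/-! CORE: exchange at the last legal cut keeps the absence of legal cuts of shift one. -/

set_option autoImplicit false

namespace Frz.Comb

namespace CORE_

theorem not_even {p q e i : ℕ} {u v : ℕ → ℕ} (h : ¬ LF p q e (2 * i) u v) (h1 : i ≤ p)
    (h2 : i + e ≤ q) : (1 ≤ i ∧ v (2 * i + 2 * e) ≤ u (2 * i - 1)) ∨
      (1 ≤ i + e ∧ u (2 * i) ≤ v (2 * i + 2 * e - 1)) := by
  by_contra hc
  rw [not_or, not_and, not_and] at hc
  obtain ⟨c1, c2⟩ := hc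
  apply h
  refine ⟨by omega, by omega, fun hodd => by omega, fun _ => ⟨fun h3 => ?_, fun h3 => ?_⟩⟩
  · have := c1 (by omega)
    omega
  · have := c2 (by omega)
    omega

theorem not_odd {p q e i : ℕ} {u v : ℕ → ℕ} (h : ¬ LF p q e (2 * i + 1) u v) (h1 : i ≤ p)
    (h2 : i + e ≤ q) : (i + e < q ∧ u (2 * i) ≤ v (2 * i + 1 + 2 * e)) ∨
      (i < p ∧ v (2 * i + 2 * e) ≤ u (2 * i + 1)) := by
  by_contra hc
  rw [not_or, not_and, not_and] at hc
  obtain ⟨c1, c2⟩ := hc
  apply h
  refine ⟨by omega, by omega, fun _ => ⟨fun h3 => ?_, fun h3 => ?_⟩, fun heven => by omega⟩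
  · have := c1 (by omega)
    have e1 : 2 * i + 1 - 1 = 2 * i := by omega
    rw [e1]
    omega
  · have := c2 (by omega)
    have e1 : 2 * i + 1 + 2 * e - 1 = 2 * i + 2 * e := by omega
    rw [e1]
    omega

/-- (a) -/
theorem stepA {p q : ℕ} {u v : ℕ → ℕ} (hu : VF p u) (hv : VF q v) (hp : 1 ≤ p) (hq : 1 ≤ q)
    (hno : ∀ j, ¬ LF p q 1 j u v) :
    ∀ i ≤ p, i + 1 < q ∧ u (2 * i) ≤ v (2 * i + 1) ∧ u (2 * i) ≤ v (2 * i + 3) := by
  intro i
  induction i with
  | zero =>
    intro _
    have h0 := not_even (hno (2 * 0)) (by omega) (by omega)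
    have h1 := not_odd (hno (2 * 0 + 1)) (by omega) (by omega)
    have u0 := hu 0 (by omega)
    have v0 := hv 0 (by omega)
    simp only [Nat.mul_zero, Nat.zero_add, Nat.mul_one] at h0 h1 u0 v0 ⊢
    have e1 : 2 - 1 = 1 := rfl
    have e2 : 1 + 2 = 3 := rfl
    rw [e1] at h0
    rw [e2] at h1
    omega
  | succ i ih =>
    intro hi
    obtain ⟨h1, h2, h3⟩ := ih (by omega)
    have a0 := not_even (hno (2 * (i + 1))) (by omega) (by omega)
    have a1 := not_odd (hno (2 * (i + 1) + 1)) (by omega) (by omega)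
    have u0 := hu i (by omega)
    have v1 := hv (i + 1) (by omega)
    have e1 : 2 * (i + 1) - 1 = 2 * i + 1 := by omega
    have e2 : 2 * (i + 1) + 2 * 1 - 1 = 2 * i + 3 := by omega
    have e3 : 2 * (i + 1) + 2 * 1 = 2 * i + 4 := by omega
    have e4 : 2 * (i + 1) + 1 + 2 * 1 = 2 * i + 5 := by omega
    have e5 : 2 * (i + 1) + 1 = 2 * i + 3 := by omega
    have e6 : 2 * (i + 1) + 2 = 2 * i + 4 := by omega
    have e7 : 2 * (i + 1) + 3 = 2 * i + 5 := by omega
    have e8 : 2 * (i + 1) = 2 * i + 2 := by omega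
    rw [e1, e2, e3, e8] at a0
    rw [e4, e5, e3, e8] at a1
    rw [e5, e6, e8] at v1
    rw [e5, e7, e8]
    rcases Nat.lt_or_ge (i + 1) p with hlt | hge
    · have u1 := hu (i + 1) hlt
      rw [e5, e8] at u1
      omega
    · omega

/-- (b) -/
theorem stepB {p q e : ℕ} {u v : ℕ → ℕ} (hu : VF p u) (hv : VF q v) (hp : 1 ≤ p)
    (he : p + e = q + 1) (he1 : 1 ≤ e) :
    ∀ r i, i + 1 + r = p → ((∀ j, 2 * i + 1 ≤ j → ¬ LF p q e j u v) →
      v (2 * i + 2 * e) ≤ u (2 * i + 1)) ∧
      ((∀ j, 2 * i ≤ j → ¬ LF p q e j u v) → 1 ≤ i ∧ v (2 * i + 2 * e) ≤ u (2 * i - 1)) := by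
  intro r
  induction r with
  | zero =>
    intro i hi
    have key : (∀ j, 2 * i + 1 ≤ j → ¬ LF p q e j u v) → v (2 * i + 2 * e) ≤ u (2 * i + 1) := by
      intro h
      have a1 := not_odd (h (2 * i + 1) le_rfl) (by omega) (by omega)
      rcases a1 with a1 | a1
      · omega
      · exact a1.2
    refine ⟨key, fun h => ?_⟩
    have k1 := key (fun j hj => h j (by omega))
    have a0 := not_even (h (2 * i) le_rfl) (by omega) (by omega)
    have u0 := hu i (by omega)
    have v0 := hv (i + e - 1) (by omega)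
    have e1 : 2 * (i + e - 1) + 1 = 2 * i + 2 * e - 1 := by omega
    have e2 : 2 * (i + e - 1) + 2 = 2 * i + 2 * e := by omega
    rw [e1, e2] at v0
    omega
  | succ r ih =>
    intro i hi
    obtain ⟨_, ih2⟩ := ih (i + 1) (by omega)
    have key : (∀ j, 2 * i + 1 ≤ j → ¬ LF p q e j u v) → v (2 * i + 2 * e) ≤ u (2 * i + 1) := by
      intro h
      obtain ⟨_, b2⟩ := ih2 (fun j hj => h j (by omega))
      have a1 := not_odd (h (2 * i + 1) le_rfl) (by omega) (by omega)
      have u0 := hu i (by omega)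
      have v0 := hv (i + e) (by omega)
      have e1 : 2 * (i + 1) + 2 * e = 2 * (i + e) + 2 := by omega
      have e2 : 2 * (i + 1) - 1 = 2 * i + 1 := by omega
      have e3 : 2 * i + 1 + 2 * e = 2 * (i + e) + 1 := by omega
      rw [e1, e2] at b2
      rw [e3] at a1
      rcases a1 with a1 | a1
      · omega
      · exact a1.2
    refine ⟨key, fun h => ?_⟩
    have k1 := key (fun j hj => h j (by omega))
    have a0 := not_even (h (2 * i) le_rfl) (by omega) (by omega)
    have u0 := hu i (by omega)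
    have v0 := hv (i + e - 1) (by omega)
    have e1 : 2 * (i + e - 1) + 1 = 2 * i + 2 * e - 1 := by omega
    have e2 : 2 * (i + e - 1) + 2 = 2 * i + 2 * e := by omega
    rw [e1, e2] at v0
    omega

/-- (c) -/
theorem stepC {p q e k : ℕ} {u v : ℕ → ℕ} (hu : VF p u) (hv : VF q v) (hp : 1 ≤ p)
    (he : p + e = q + 1) (he1 : 3 ≤ e)
    (hA : ∀ i ≤ p, i + 1 < q ∧ u (2 * i) ≤ v (2 * i + 1) ∧ u (2 * i) ≤ v (2 * i + 3))
    (hlast : ∀ j, k < j → ¬ LF p q e j u v) (i : ℕ) (hi : i + 1 ≤ p) :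
    (if 2 * i < k then u (2 * i) else v (2 * i + 2 * e)) ≤
      (if 2 * i + 1 < k + 2 * e then v (2 * i + 1) else u (2 * i + 1 - 2 * e)) ∧
    (if 2 * i < k then u (2 * i) else v (2 * i + 2 * e)) ≤
      (if 2 * i + 3 < k + 2 * e then v (2 * i + 3) else u (2 * i + 3 - 2 * e)) := by
  obtain ⟨a1, a2, a3⟩ := hA i (by omega)
  rcases Nat.lt_or_ge (2 * i) k with h | h
  · rw [if_pos h, if_pos (by omega), if_pos (by omega)]
    exact ⟨a2, a3⟩
  · rw [if_neg (by omega)]
    have b1 := (stepB hu hv hp he (by omega) (p - 1 - i) i (by omega)).1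
      (fun j hj => hlast j (by omega))
    have u0 := hu i (by omega)
    constructor
    · split_ifs with h1
      · omega
      · have b2 := (stepB hu hv hp he (by omega) (p - 1 - (i + 1 - e)) (i + 1 - e)
          (by omega)).2 (fun j hj => hlast j (by omega))
        have v0 := hv i (by omega)
        have e1 : 2 * (i + 1 - e) + 2 * e = 2 * i + 2 := by omega
        have e2 : 2 * (i + 1 - e) - 1 = 2 * i + 1 - 2 * e := by omega
        rw [e1, e2] at b2
        omega
    · split_ifs with h1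
      · omega
      · have b2 := (stepB hu hv hp he (by omega) (p - 1 - (i + 2 - e)) (i + 2 - e)
          (by omega)).2 (fun j hj => hlast j (by omega))
        have v0 := hv (i + 1) (by omega)
        have e1 : 2 * (i + 2 - e) + 2 * e = 2 * (i + 1) + 2 := by omega
        have e2 : 2 * (i + 2 - e) - 1 = 2 * i + 3 - 2 * e := by omega
        have e3 : 2 * (i + 1) + 1 = 2 * i + 3 := by omega
        rw [e1, e2] at b2
        rw [e3] at v0
        omega

end CORE_

open CORE_ in
/-- CORE -/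
theorem pCORE : T_CORE := by
  intro p q u v hu hv hp hq hno
  have hA := stepA hu hv hp hq hno
  have hpq : p + 2 ≤ q := by
    have := (hA p le_rfl).1
    omega
  obtain ⟨e, he⟩ : ∃ e, e = q + 1 - p := ⟨_, rfl⟩
  rw [← he]
  refine ⟨hpq, ?_, ?_⟩
  · by_contra hc
    rw [not_exists] at hc
    have b := (stepB hu hv hp (by omega) (by omega) (p - 1) 0 (by omega)).2 (fun j _ => hc j)
    omega
  · intro k _ hlast j hj
    obtain ⟨j1, j2, j3, j4⟩ := hj
    obtain ⟨i, hi⟩ : ∃ i, j = 2 * i ∨ j = 2 * i + 1 := ⟨j / 2, by omega⟩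
    have hc := stepC hu hv hp (by omega) (by omega) hA hlast i (by omega)
    rcases hi with rfl | rfl
    · have h4 := (j4 (by omega)).2 (by omega)
      have e1 : 2 * i + 2 * 1 - 1 = 2 * i + 1 := by omega
      rw [e1] at h4
      have := hc.1
      simp only at h4
      omega
    · have h3 := (j3 (by omega)).1 (by omega)
      have e1 : 2 * i + 1 + 2 * 1 = 2 * i + 3 := by omega
      have e2 : 2 * i + 1 - 1 = 2 * i := by omega
      rw [e1, e2] at h3
      have := hc.2
      simp only at h3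
      omega

end Frz.Comb
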