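import Pool.Agent.Frz.Comb.Targets

/-!
# MP_66bb51_pr: the numbers of pairs of sides are symmetric and convex (target CVX)
-/

set_option autoImplicit false

namespace Frz.Comb

namespace CVX_

open Classical in
/-- the last legal cut -/
noncomputable def lastk (d : ℕ) (P : List El × List El) : ℕ :=
  if h : ∃ k, Leg d k P ∧ ∀ j, k < j → ¬ Leg d j P then h.choose else 0

theorem exists_last {d : ℕ} {P : List El × List El} (h : ∃ k, Leg d k P) :
    ∃ k, Leg d k P ∧ ∀ j, k < j → ¬ Leg d j P := by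
  classical
  obtain ⟨k0, hk0⟩ := h
  refine ⟨Nat.findGreatest (fun k => Leg d k P) P.1.length, ?_, ?_⟩
  · exact Nat.findGreatest_spec (P := fun k => Leg d k P) hk0.1 hk0
  · intro j hj hL
    exact absurd hL (Nat.findGreatest_is_greatest hj hL.1)

theorem lastk_eq {d k : ℕ} {P : List El × List El} (h1 : Leg d k P)
    (h2 : ∀ j, k < j → ¬ Leg d j P) : lastk d P = k := by
  have h : ∃ k, Leg d k P ∧ ∀ j, k < j → ¬ Leg d j P := ⟨k, h1, h2⟩
  unfold lastk
  rw [dif_pos h]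
  have hs := h.choose_spec
  rcases lt_trichotomy h.choose k with h' | h' | h'
  · exact absurd h1 (hs.2 _ h')
  · exact h'
  · exact absurd hs.1 (h2 _ h')

/-- exchange at the last legal cut -/
noncomputable def Phi (d : ℕ) (P : List El × List El) : List El × List El := sw d (lastk d P) P

/-- the pairs with a legal cut of shift `d` -/
def CL (top : ℕ) (w : List El) (d a b : ℕ) : Set (List El × List El) :=
  {P | P ∈ Prs top w a b ∧ ∃ k, Leg d k P}

/-- the pairs without legal cuts of shift two -/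
def DD (top : ℕ) (w : List El) (a b : ℕ) : Set (List El × List El) :=
  {P | P ∈ Prs top w a b ∧ ∀ k, ¬ Leg 2 k P}

theorem phi_key (hL : T_LAST) {top : ℕ} {w : List El} {d a b : ℕ} {P : List El × List El}
    (hP : P ∈ CL top w d a b) :
    Phi d P ∈ CL top w d (b - d) (a + d) ∧ Phi d (Phi d P) = P ∧
      ∃ k, Leg d k P ∧ (∀ j, k < j → ¬ Leg d j P) ∧ Phi d P = sw d k P := by
  obtain ⟨⟨⟨hV1, hV2, hperm⟩, ha, hb⟩, hex⟩ := hP
  obtain ⟨k, hk, hk'⟩ := exists_last hex
  obtain ⟨h1, h2, h3, h4, h5, h6⟩ := hL d k P hV1 hV2 hk hk'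
  have e1 : Phi d P = sw d k P := by unfold Phi; rw [lastk_eq hk hk']
  have e2 : Phi d (Phi d P) = P := by
    rw [e1]; unfold Phi; rw [lastk_eq h1 h2]; exact h3
  refine ⟨?_, e2, k, hk, hk', e1⟩
  rw [e1]
  refine ⟨⟨⟨hk.2.2.1, hk.2.2.2, ?_⟩, ?_, ?_⟩, k, h1⟩
  · exact ((h6.filter _).trans hperm)
  · rw [h4, hb]
  · rw [h5, ha]

theorem CL_le (hF : T_FIN) (hL : T_LAST) (top : ℕ) (w : List El) (d a b : ℕ) :
    (CL top w d a b).ncard ≤ (CL top w d (b - d) (a + d)).ncard := by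
  refine Set.ncard_le_ncard_of_injOn (Phi d) (fun P hP => (phi_key hL hP).1) ?_ ?_
  · intro P hP Q hQ h
    have := congrArg (Phi d) h
    rwa [(phi_key hL hP).2.1, (phi_key hL hQ).2.1] at this
  · exact ((hF top w).1 _ _).subset (fun P hP => hP.1)

theorem CL_eq (hF : T_FIN) (hL : T_LAST) (top : ℕ) (w : List El) (d a b : ℕ) (hd : d ≤ b) :
    (CL top w d a b).ncard = (CL top w d (b - d) (a + d)).ncard := by
  refine le_antisymm (CL_le hF hL top w d a b) ?_
  have h := CL_le hF hL top w d (b - d) (a + d)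
  rwa [Nat.add_sub_cancel, Nat.sub_add_cancel hd] at h

theorem split_card (hF : T_FIN) (top : ℕ) (w : List El) (a b : ℕ) :
    (Prs top w a b).ncard = (CL top w 2 a b).ncard + (DD top w a b).ncard := by
  have f1 : (CL top w 2 a b).Finite := ((hF top w).1 _ _).subset (fun P hP => hP.1)
  have f2 : (DD top w a b).Finite := ((hF top w).1 _ _).subset (fun P hP => hP.1)
  have hdis : Disjoint (CL top w 2 a b) (DD top w a b) := by
    rw [Set.disjoint_left]
    rintro P ⟨_, k, hk⟩ ⟨_, hP⟩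
    exact hP k hk
  rw [← Set.ncard_union_eq hdis f1 f2]
  congr 1
  ext P
  constructor
  · intro hP
    by_cases h : ∃ k, Leg 2 k P
    · exact Or.inl ⟨hP, h⟩
    · exact Or.inr ⟨hP, fun k hk => h ⟨k, hk⟩⟩
  · rintro (hP | hP)
    · exact hP.1
    · exact hP.1

theorem DD_le (hF : T_FIN) (hD : T_DAN) (hL : T_LAST) (top : ℕ) (w : List El) (p q : ℕ)
    (hp : 1 ≤ p) (hq : 1 ≤ q) :
    (DD top w (2 * p + 1) (2 * q + 1)).ncard ≤
      (DD top w (2 * (p - 1) + 1) (2 * (q + 1) + 1)).ncard := by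
  have key : ∀ P ∈ DD top w (2 * p + 1) (2 * q + 1), p + 2 ≤ q ∧
      P ∈ CL top w (2 * (q + 1 - p)) (2 * p + 1) (2 * q + 1) ∧
      ∀ k, Leg (2 * (q + 1 - p)) k P → (∀ j, k < j → ¬ Leg (2 * (q + 1 - p)) j P) →
        ∀ j, ¬ Leg 2 j (sw (2 * (q + 1 - p)) k P) := by
    intro P hP
    obtain ⟨⟨⟨hV1, hV2, hperm⟩, ha, hb⟩, hno⟩ := hP
    obtain ⟨h1, h2, h3⟩ := hD P p q hV1 hV2 ha hb hp hq hno
    exact ⟨h1, ⟨⟨⟨hV1, hV2, hperm⟩, ha, hb⟩, h2⟩, h3⟩
  refine Set.ncard_le_ncard_of_injOn (Phi (2 * (q + 1 - p))) ?_ ?_ ?_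
  · intro P hP
    obtain ⟨h1, h2, h3⟩ := key P hP
    obtain ⟨g1, -, k, g2, g3, g4⟩ := phi_key hL h2
    refine ⟨?_, ?_⟩
    · have g5 := g1.1
      have e1 : 2 * q + 1 - 2 * (q + 1 - p) = 2 * (p - 1) + 1 := by omega
      have e2 : 2 * p + 1 + 2 * (q + 1 - p) = 2 * (q + 1) + 1 := by omega
      rwa [e1, e2] at g5
    · rw [g4]
      exact h3 k g2 g3
  · intro P hP Q hQ h
    have h' := congrArg (Phi (2 * (q + 1 - p))) h
    rwa [(phi_key hL (key P hP).2.1).2.1, (phi_key hL (key Q hQ).2.1).2.1] at h'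
  · exact ((hF top w).1 _ _).subset (fun P hP => hP.1)

theorem symm_le (hF : T_FIN) (top : ℕ) (w : List El) (a b : ℕ) :
    (Prs top w a b).ncard ≤ (Prs top w b a).ncard := by
  refine Set.ncard_le_ncard_of_injOn Prod.swap ?_ (Prod.swap_injective.injOn) ?_
  · rintro P ⟨⟨hV1, hV2, hperm⟩, ha, hb⟩
    refine ⟨⟨hV2, hV1, ?_⟩, hb, ha⟩
    exact (List.perm_append_comm.filter _).trans hperm
  · exact (hF top w).1 _ _

theorem symm_eq (hF : T_FIN) (top : ℕ) (w : List El) (a b : ℕ) :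
    (Prs top w a b).ncard = (Prs top w b a).ncard :=
  le_antisymm (symm_le hF top w a b) (symm_le hF top w b a)

end CVX_

open CVX_ in
theorem pCVX' : T_FIN → T_DAN → T_LAST → T_CVX := by
  intro hF hD hL top w t _
  refine ⟨fun p _ => symm_eq hF top w _ _, ?_⟩
  intro p hp hpt
  -- relation (*)
  have star : ∀ p, p + 1 ≤ t →
      (Prs top w (2 * p + 1) (2 * (t - p) + 1)).ncard +
        (DD top w (2 * (t - (p + 1)) + 1) (2 * (p + 1) + 1)).ncard =
      (Prs top w (2 * (p + 1) + 1) (2 * (t - (p + 1)) + 1)).ncard +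
        (DD top w (2 * p + 1) (2 * (t - p) + 1)).ncard := by
    intro p hpt
    have h1 := split_card hF top w (2 * p + 1) (2 * (t - p) + 1)
    have h2 := split_card hF top w (2 * (t - (p + 1)) + 1) (2 * (p + 1) + 1)
    have h3 := CL_eq hF hL top w 2 (2 * p + 1) (2 * (t - p) + 1) (by omega)
    have e1 : 2 * (t - p) + 1 - 2 = 2 * (t - (p + 1)) + 1 := by omega
    have e2 : 2 * p + 1 + 2 = 2 * (p + 1) + 1 := by omega
    rw [e1, e2] at h3
    have h4 := symm_eq hF top w (2 * (p + 1) + 1) (2 * (t - (p + 1)) + 1)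
    omega
  have s1 := star p hpt
  have s2 := star (p - 1) (by omega)
  rw [Nat.sub_add_cancel hp] at s2
  have d1 := DD_le hF hD hL top w p (t - p) hp (by omega)
  have d2 := DD_le hF hD hL top w (t - p) p (by omega) hp
  have e1 : t - p + 1 = t - (p - 1) := by omega
  have e2 : t - p - 1 = t - (p + 1) := by omega
  rw [e1] at d1
  rw [e2] at d2
  omega

theorem pCVX : T_VALI → T_FIN → T_DAN → T_LAST → T_CVX := fun _ => pCVX'

end Frz.Comb
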