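import Pool.Agent.Frz.Comb.Targets

/-!
# MP_66bb51_pr: the exchange of tails at the last legal cut keeps the absence of cuts of shift one
-/

set_option autoImplicit false

namespace Frz.Comb

namespace DAN_

lemma tm_first (X Y : List El) (k d : ℕ) (hk : k ≤ X.length) :
    tm (X.take k ++ Y.drop (k + d)) = fun i => if i < k then tm X i else tm Y (i + d) := by
  funext i
  have hlen : (X.take k).length = k := by rw [List.length_take]; omega
  unfold tm
  by_cases hi : i < k
  · rw [if_pos hi, List.getD_eq_getElem?_getD, List.getD_eq_getElem?_getD,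
      List.getElem?_append_left (by rw [hlen]; exact hi), List.getElem?_take_of_lt hi]
  · rw [if_neg hi, List.getD_eq_getElem?_getD, List.getD_eq_getElem?_getD,
      List.getElem?_append_right (by rw [hlen]; omega), List.getElem?_drop, hlen]
    have : k + d + (i - k) = i + d := by omega
    rw [this]

lemma tm_second (X Y : List El) (k d : ℕ) (hk : k + d ≤ Y.length) :
    tm (Y.take (k + d) ++ X.drop k) =
      fun i => if i < k + d then tm Y i else tm X (i - d) := by
  funext i
  have hlen : (Y.take (k + d)).length = k + d := by rw [List.length_take]; omega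
  unfold tm
  by_cases hi : i < k + d
  · rw [if_pos hi, List.getD_eq_getElem?_getD, List.getD_eq_getElem?_getD,
      List.getElem?_append_left (by rw [hlen]; exact hi), List.getElem?_take_of_lt hi]
  · rw [if_neg hi, List.getD_eq_getElem?_getD, List.getD_eq_getElem?_getD,
      List.getElem?_append_right (by rw [hlen]; omega), List.getElem?_drop, hlen]
    have : k + (i - (k + d)) = i - d := by omega
    rw [this]

end DAN_

open DAN_ in
theorem pDAN : T_VALI → T_LEGI → T_CORE → T_DAN := by
  intro hVALI hLEGI hCORE P p q hX hY hlX hlY hp hq hno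
  obtain ⟨X, Y⟩ := P
  simp only at hX hY hlX hlY
  have hu : VF p (tm X) := ((hVALI.2 X p hlX).1 hX).1
  have hv : VF q (tm Y) := ((hVALI.2 Y q hlY).1 hY).1
  have hno' : ∀ j, ¬ LF p q 1 j (tm X) (tm Y) := by
    intro j hj
    exact hno j ((hLEGI X Y p q 1 j hX hY hlX hlY).2 hj)
  obtain ⟨hpq, ⟨k0, hk0⟩, hlast⟩ := hCORE p q (tm X) (tm Y) hu hv hp hq hno'
  refine ⟨hpq, ⟨k0, (hLEGI X Y p q (q + 1 - p) k0 hX hY hlX hlY).2 hk0⟩, ?_⟩
  intro k hk hkl j hj
  have h1 := hlast k ((hLEGI X Y p q (q + 1 - p) k hX hY hlX hlY).1 hk)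
    (fun j hkj hj => hkl j hkj ((hLEGI X Y p q (q + 1 - p) j hX hY hlX hlY).2 hj)) j
  apply h1
  obtain ⟨hkX, hkY, hX', hY'⟩ := hk
  simp only at hkX hkY
  have hlX' : (sw (2 * (q + 1 - p)) k (X, Y)).1.length = 2 * (p - 1) + 1 := by
    unfold sw
    simp only [List.length_append, List.length_take, List.length_drop]
    omega
  have hlY' : (sw (2 * (q + 1 - p)) k (X, Y)).2.length = 2 * (q + 1) + 1 := by
    unfold sw
    simp only [List.length_append, List.length_take, List.length_drop]
    omega
  have h2 := (hLEGI _ _ (p - 1) (q + 1) 1 j hX' hY' hlX' hlY').1 hj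
  have e1 : tm (sw (2 * (q + 1 - p)) k (X, Y)).1 =
      fun i => if i < k then tm X i else tm Y (i + 2 * (q + 1 - p)) :=
    tm_first X Y k _ hkX
  have e2 : tm (sw (2 * (q + 1 - p)) k (X, Y)).2 =
      fun i => if i < k + 2 * (q + 1 - p) then tm Y i else tm X (i - 2 * (q + 1 - p)) :=
    tm_second X Y k _ hkY
  rw [e1, e2] at h2
  exact h2

end Frz.Comb
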