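import Pool.Agent.Frz.Comb.Targets

/-!
# EHF: the formula for the expected height
-/

set_option autoImplicit false

namespace Frz.Comb

open Finset

namespace EHF_

/-- the number of histories with height at most `h` -/
private noncomputable def G (x : List Bool) (T A : Finset (List ℕ)) (h : ℕ) : ℝ :=
  if T.sup List.length ≤ h then ((cc x (A.val.map (fun v => h - v.length)) : ℕ) : ℝ) else 0

private theorem base (s M : ℕ) (h : s ≤ M) :
    (s : ℝ) = ∑ i ∈ range M, ((1 : ℝ) - (if s ≤ i then 1 else 0)) := by
  have h1 : ∀ i ∈ range M, ((1 : ℝ) - (if s ≤ i then 1 else 0)) = if i < s then 1 else 0 := by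
    intro i _
    by_cases hi : s ≤ i
    · rw [if_pos hi, if_neg (by omega)]
      ring
    · rw [if_neg hi, if_pos (by omega)]
      ring
  rw [sum_congr rfl h1, ← sum_filter, sum_const, nsmul_eq_mul, mul_one]
  have h2 : (range M).filter (fun i => i < s) = range s := by
    ext i
    simp only [mem_filter, mem_range]
    omega
  rw [h2, card_range]

private theorem new_notMem {T : Finset (List ℕ)} (hT : ∀ u ∈ T, ∀ c ∈ u, c < T.card)
    (v : List ℕ) : v ++ [T.card] ∉ T := by
  intro h
  have := hT _ h T.card (by simp)
  omega

private theorem G_true (x : List Bool) (T A : Finset (List ℕ)) (h : ℕ) (hA : A ⊆ T)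
    (hT : ∀ u ∈ T, ∀ c ∈ u, c < T.card) :
    ∑ v ∈ A, G x (insert (v ++ [T.card]) T) (insert (v ++ [T.card]) A) h = G (true :: x) T A h := by
  by_cases hs : T.sup List.length ≤ h
  · have h1 : G (true :: x) T A h = ∑ v ∈ A, (if h - v.length = 0 then (0 : ℝ) else
        ((cc x ((h - v.length - 1) ::ₘ A.val.map (fun v => h - v.length)) : ℕ) : ℝ)) := by
      unfold G
      rw [if_pos hs]
      simp only [cc]
      rw [Multiset.map_map, Finset.sum_eq_multiset_sum]
      push_cast
      rw [Multiset.map_map]
      congr 1
      apply Multiset.map_congr rfl
      intro v _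
      simp only [Function.comp_apply]
      split_ifs <;> simp
    rw [h1]
    apply sum_congr rfl
    intro v hv
    have hnA : v ++ [T.card] ∉ A := fun h' => new_notMem hT v (hA h')
    unfold G
    rw [Finset.sup_insert, Finset.insert_val_of_notMem hnA, Multiset.map_cons]
    have hl : (v ++ [T.card]).length = v.length + 1 := by simp
    rw [hl]
    by_cases h0 : h - v.length = 0
    · rw [if_pos h0, if_neg]
      intro h'
      have := le_trans le_sup_left h'
      omega
    · rw [if_neg h0, if_pos (sup_le (by omega) hs)]
      congr 3
  · have h1 : G (true :: x) T A h = 0 := by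
      unfold G
      rw [if_neg hs]
    rw [h1]
    apply sum_eq_zero
    intro v hv
    unfold G
    rw [if_neg]
    intro h'
    rw [Finset.sup_insert] at h'
    exact hs (le_trans le_sup_right h')

private theorem G_false (x : List Bool) (T A : Finset (List ℕ)) (h : ℕ) :
    ∑ v ∈ A, G x T (A.erase v) h = G (false :: x) T A h := by
  by_cases hs : T.sup List.length ≤ h
  · unfold G
    simp only [if_pos hs]
    simp only [cc]
    rw [Multiset.map_map, Finset.sum_eq_multiset_sum]
    push_cast
    rw [Multiset.map_map]
    congr 1
    apply Multiset.map_congr rfl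
    intro v hv
    simp only [Function.comp_apply]
    rw [Finset.erase_val, Multiset.map_erase_of_mem _ _ hv]
  · unfold G
    simp only [if_neg hs, sum_const_zero]

private theorem main (x : List Bool) : ∀ (T A : Finset (List ℕ)) (M : ℕ), A ⊆ T →
    (∀ u ∈ T, ∀ c ∈ u, c < T.card) → T.sup List.length + x.count true ≤ M →
    EH x T A * (NN x A.card : ℝ) = ∑ h ∈ range M, ((NN x A.card : ℝ) - G x T A h) := by
  induction x with
  | nil =>
    intro T A M hA hT hM
    simp only [List.count_nil, Nat.add_zero] at hM
    simp only [EH, NN, G, cc, Nat.cast_one, mul_one]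
    exact base _ _ hM
  | cons c x ih =>
    intro T A M hA hT hM
    rcases A.eq_empty_or_nonempty with rfl | hne
    · have h1 : ∀ h, G (c :: x) T ∅ h = 0 := by
        intro h
        cases c with
        | true => rw [← G_true x T ∅ h (by simp) hT, sum_empty]
        | false => rw [← G_false x T ∅ h, sum_empty]
      have h2 : (NN (c :: x) (∅ : Finset (List ℕ)).card : ℝ) = 0 := by
        cases c <;> simp [NN]
      simp only [h1, h2]
      simp
    have ha : (A.card : ℝ) ≠ 0 := by
      have := hne.card_pos
      positivity
    cases c with
    | true =>
      have hc : (true :: x).count true = x.count true + 1 := List.count_cons_self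
      rw [hc] at hM
      have h1 : ∀ v ∈ A, EH x (insert (v ++ [T.card]) T) (insert (v ++ [T.card]) A) *
          (NN x (A.card + 1) : ℝ) = ∑ h ∈ range M, ((NN x (A.card + 1) : ℝ) -
            G x (insert (v ++ [T.card]) T) (insert (v ++ [T.card]) A) h) := by
        intro v hv
        have hn := new_notMem hT v
        have hnA : v ++ [T.card] ∉ A := fun h' => hn (hA h')
        have hsv : v.length ≤ T.sup List.length := Finset.le_sup (f := List.length) (hA hv)
        have := ih (insert (v ++ [T.card]) T) (insert (v ++ [T.card]) A) M
          (insert_subset_insert _ hA) (by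
            intro u hu c hc'
            rw [card_insert_of_notMem hn]
            rw [mem_insert] at hu
            rcases hu with rfl | hu
            · rw [List.mem_append] at hc'
              rcases hc' with hc' | hc'
              · have := hT v (hA hv) c hc'
                omega
              · rw [List.mem_singleton] at hc'
                omega
            · have := hT u hu c hc'
              omega) (by
            rw [Finset.sup_insert]
            have hl : (v ++ [T.card]).length = v.length + 1 := by simp
            rw [hl]
            have : (v.length + 1) ⊔ T.sup List.length ≤ T.sup List.length + 1 :=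
              sup_le (by omega) (by omega)
            omega)
        rw [card_insert_of_notMem hnA] at this
        exact this
      have h2 : EH (true :: x) T A * (NN (true :: x) A.card : ℝ) =
          ∑ v ∈ A, EH x (insert (v ++ [T.card]) T) (insert (v ++ [T.card]) A) *
          (NN x (A.card + 1) : ℝ) := by
        simp only [EH, NN]
        push_cast
        rw [← Finset.sum_mul]
        field_simp
      rw [h2, sum_congr rfl h1, sum_comm]
      apply sum_congr rfl
      intro h _
      rw [sum_sub_distrib, G_true x T A h hA hT, sum_const, nsmul_eq_mul]
      simp only [NN]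
      push_cast
      ring
    | false =>
      have hc : (false :: x).count true = x.count true := by simp
      rw [hc] at hM
      have h1 : ∀ v ∈ A, EH x T (A.erase v) * (NN x (A.card - 1) : ℝ) =
          ∑ h ∈ range M, ((NN x (A.card - 1) : ℝ) - G x T (A.erase v) h) := by
        intro v hv
        have := ih T (A.erase v) M ((erase_subset _ _).trans hA) hT hM
        rw [card_erase_of_mem hv] at this
        exact this
      have h2 : EH (false :: x) T A * (NN (false :: x) A.card : ℝ) =
          ∑ v ∈ A, EH x T (A.erase v) * (NN x (A.card - 1) : ℝ) := by
        simp only [EH, NN]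
        push_cast
        rw [← Finset.sum_mul]
        field_simp
      rw [h2, sum_congr rfl h1, sum_comm]
      apply sum_congr rfl
      intro h _
      rw [sum_sub_distrib, G_false x T A h, sum_const, nsmul_eq_mul]
      simp only [NN]
      push_cast
      ring

private theorem start (x : List Bool) (M : ℕ) (hM : x.count true ≤ M) :
    expHeight x * (NN x 1 : ℝ) = ∑ h ∈ range M, ((NN x 1 : ℝ) - (CC (h + 1) x : ℝ)) := by
  have h1 := main x {[]} {[]} M (Subset.refl _) (by simp) (by simpa using hM)
  rw [card_singleton] at h1
  unfold expHeight
  rw [h1]
  apply sum_congr rfl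
  intro h _
  have h2 : G x {[]} {[]} h = (CC (h + 1) x : ℝ) := by
    unfold G CC
    rw [if_pos (by simp), if_neg (by omega)]
    rfl
  rw [h2]

end EHF_

/-- EHF. -/
theorem pEHF : T_CCB → T_EHF := fun _ x M hM => EHF_.start x M hM

end Frz.Comb
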