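import Pool.Agent.Frz.Comb.Targets

/-!
# MP_66bb51_pr: FIN, finiteness
-/

set_option autoImplicit false

namespace Frz.Comb

namespace FIN_

lemma finite_lists (s : Finset El) (N : ℕ) :
    {l : List El | l.length ≤ N ∧ ∀ e ∈ l, e ∈ s}.Finite := by
  have h1 : {l : List s | l.length ≤ N}.Finite := List.finite_length_le s N
  refine (h1.image (List.map Subtype.val)).subset ?_
  rintro l ⟨hl, hs⟩
  refine ⟨l.attachWith (fun e => e ∈ s) hs, ?_, ?_⟩
  · simpa using hl
  · simp only [List.map_attachWith]
    exact List.attach_map_subtype_val l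

lemma mem_of (top : ℕ) (Z w : List El) (h : (fin top Z).Perm w) (e : El) (he : e ∈ Z) :
    e ∈ w.toFinset ∪ {(false, top)} := by
  rw [Finset.mem_union, Finset.mem_singleton, List.mem_toFinset]
  by_cases h1 : e = (false, top)
  · exact Or.inr h1
  · left
    rw [← h.mem_iff, fin, List.mem_filter]
    exact ⟨he, by simp [h1]⟩

lemma count_le (top : ℕ) (Z w : List El) (h : (fin top Z).Perm w) :
    Z.countP (fun e => e.1) ≤ w.length := by
  rw [← h.length_eq, fin, ← List.countP_eq_length_filter]
  refine List.countP_mono_left (fun e _ he => ?_)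
  simp only [decide_eq_true_eq]
  rintro rfl
  simp at he

end FIN_

open FIN_ in
theorem pFIN : T_VALI → T_FIN := by
  intro hV top w
  have hPr : (Pr top w).Finite := by
    have h1 := finite_lists (w.toFinset ∪ {(false, top)}) (2 * w.length + 1)
    refine (h1.prod h1).subset ?_
    rintro P ⟨hP1, hP2, hP3⟩
    have hc := count_le top _ w hP3
    rw [List.countP_append] at hc
    have hl1 := hV.1 P.1 hP1
    have hl2 := hV.1 P.2 hP2
    refine ⟨⟨by omega, fun e he => mem_of top _ w hP3 e (List.mem_append_left _ he)⟩,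
      ⟨by omega, fun e he => mem_of top _ w hP3 e (List.mem_append_right _ he)⟩⟩
  refine ⟨fun a b => hPr.subset (fun P hP => hP.1), hPr, ?_⟩
  refine (finite_lists (w.toFinset ∪ {(false, top)}) (2 * w.length + 1)).subset ?_
  rintro X ⟨hX, hp⟩
  have hc := count_le top _ w hp
  have hl := hV.1 X hX
  exact ⟨by omega, fun e he => mem_of top _ w hp e he⟩

end Frz.Comb
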