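import Pool.Agent.Frz.Comb.Targets

/-! FINAL: the comparison of the expected heights. -/

set_option autoImplicit false

namespace Frz.Comb

open Finset

/-- FINAL -/
theorem pFINAL : T_EHF → T_POS → T_RR → T_AA → T_FINAL := by
  intro hE hP hR hA n x hx
  have hxc : x.count true = n := hx.1
  have hN : (0 : ℝ) < NN x 1 := by exact_mod_cast hP n x hx
  have h1 := hE x n hxc.le
  have h2 := hE (List.replicate n true) n (by simp)
  have hfac : (0 : ℝ) < (n.factorial : ℝ) := by exact_mod_cast n.factorial_pos
  rw [hR.2 n] at h2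
  have h3 : expHeight (List.replicate n true) = ∑ h ∈ range n, (1 - FF (h + 1) n) := by
    have h4 : expHeight (List.replicate n true) * (n.factorial : ℝ) =
        (∑ h ∈ range n, (1 - FF (h + 1) n)) * (n.factorial : ℝ) := by
      rw [h2, Finset.sum_mul]
      refine Finset.sum_congr rfl fun h _ => ?_
      unfold FF
      field_simp
    exact mul_right_cancel₀ hfac.ne' h4
  have h5 := hA x 0 n (Nat.zero_le _) hxc.le
  rw [hxc, ← Finset.range_eq_Ico] at h5
  have h6 : expHeight (List.replicate n true) * (NN x 1 : ℝ) ≤ expHeight x * (NN x 1 : ℝ) := by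
    rw [h1, h3, Finset.sum_sub_distrib, Finset.sum_sub_distrib]
    simp only [Finset.sum_const, card_range, nsmul_eq_mul, mul_one]
    nlinarith [h5]
  exact le_of_mul_le_mul_right h6 hN

end Frz.Comb
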