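import Pool.Agent.Frz.Comb.Targets

/-!
# MP_66bb51_pr, combinatorial side: exchange at the last legal cut is an involution
-/

set_option autoImplicit false

namespace Frz.Comb

open Finset

namespace LAST_

theorem glue (A B C A' C' : List El) (hB : B ≠ []) (h1 : Val (A ++ (B ++ C)))
    (h2 : Val (A' ++ (B ++ C'))) : Val (A ++ (B ++ C')) := by
  obtain ⟨b, B', rfl⟩ := List.exists_cons_of_ne_nil hB
  obtain ⟨hc1, hh1, -⟩ := h1
  obtain ⟨hc2, -, hl2⟩ := h2
  rw [List.isChain_append] at hc1 hc2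
  obtain ⟨ha, -, hj⟩ := hc1
  obtain ⟨-, hb, -⟩ := hc2
  refine ⟨?_, ?_, ?_⟩
  · rw [List.isChain_append]
    refine ⟨ha, hb, ?_⟩
    intro x hx y hy
    exact hj x hx y (by simpa using hy)
  · obtain ⟨t, ht⟩ := hh1
    refine ⟨t, ?_⟩
    rw [List.head?_append] at ht ⊢
    simpa using ht
  · obtain ⟨t, ht⟩ := hl2
    refine ⟨t, ?_⟩
    have hne : (b :: B' ++ C') ≠ [] := by simp
    obtain ⟨z, hz⟩ : ∃ z, (b :: B' ++ C').getLast? = some z := by
      exact ⟨_, List.getLast?_eq_some_getLast hne⟩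
    rw [List.getLast?_append, hz] at ht ⊢
    simpa using ht

end LAST_

theorem pLAST : T_LAST := by
  rintro d k ⟨X, Y⟩ hX hY ⟨hk, hkd, hV1, hV2⟩ hmax
  simp only at hX hY hk hkd hV1 hV2
  -- the four parts
  obtain ⟨X1, X2, hX12, hX1⟩ : ∃ X1 X2 : List El, X = X1 ++ X2 ∧ X1.length = k :=
    ⟨X.take k, X.drop k, (List.take_append_drop k X).symm, by
      rw [List.length_take]; omega⟩
  obtain ⟨Y1, Y2, hY12, hY1⟩ : ∃ Y1 Y2 : List El, Y = Y1 ++ Y2 ∧ Y1.length = k + d :=
    ⟨Y.take (k + d), Y.drop (k + d), (List.take_append_drop (k + d) Y).symm, by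
      rw [List.length_take]; omega⟩
  subst hX12 hY12
  -- cuts of glued lists
  have cut : ∀ (U1 U2 V1 V2 : List El) (m : ℕ), U1.length = k → V1.length = k + d →
      sw d (k + m) (U1 ++ U2, V1 ++ V2) =
        (U1 ++ (U2.take m ++ V2.drop m), V1 ++ (V2.take m ++ U2.drop m)) := by
    intro U1 U2 V1 V2 m hU hV
    have e1 : (U1 ++ U2).take (k + m) = U1 ++ U2.take m := by
      rw [← hU, List.take_length_add_append]
    have e2 : (V1 ++ V2).drop (k + m + d) = V2.drop m := by
      have : k + m + d = V1.length + m := by omega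
      rw [this, List.drop_length_add_append]
    have e3 : (V1 ++ V2).take (k + m + d) = V1 ++ V2.take m := by
      have : k + m + d = V1.length + m := by omega
      rw [this, List.take_length_add_append]
    have e4 : (U1 ++ U2).drop (k + m) = U2.drop m := by
      rw [← hU, List.drop_length_add_append]
    unfold sw
    simp only [e1, e2, e3, e4, List.append_assoc]
  have cut0 : ∀ (U1 U2 V1 V2 : List El), U1.length = k → V1.length = k + d →
      sw d k (U1 ++ U2, V1 ++ V2) = (U1 ++ V2, V1 ++ U2) := by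
    intro U1 U2 V1 V2 hU hV
    have := cut U1 U2 V1 V2 0 hU hV
    simpa using this
  have hsw : sw d k (X1 ++ X2, Y1 ++ Y2) = (X1 ++ Y2, Y1 ++ X2) := cut0 X1 X2 Y1 Y2 hX1 hY1
  have hsw2 : sw d k (X1 ++ Y2, Y1 ++ X2) = (X1 ++ X2, Y1 ++ Y2) := cut0 X1 Y2 Y1 X2 hX1 hY1
  rw [hsw] at hV1 hV2 ⊢
  simp only at hV1 hV2
  refine ⟨⟨?_, ?_, ?_, ?_⟩, ?_, ?_, ?_, ?_, ?_⟩
  · simp only [List.length_append]; omega
  · simp only [List.length_append]; omega
  · rw [hsw2]; exact hX
  · rw [hsw2]; exact hY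
  · intro j hj hL
    obtain ⟨m, rfl⟩ : ∃ m, j = k + m := ⟨j - k, by omega⟩
    obtain ⟨h1, h2, h3, h4⟩ := hL
    simp only [List.length_append] at h1 h2
    rw [cut X1 Y2 Y1 X2 m hX1 hY1] at h3 h4
    simp only at h3 h4
    simp only [List.length_append] at hk hkd
    have hXm : X2.take m ≠ [] := by
      intro h
      have := congrArg List.length h
      rw [List.length_take, List.length_nil] at this
      omega
    have hYm : Y2.take m ≠ [] := by
      intro h
      have := congrArg List.length h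
      rw [List.length_take, List.length_nil] at this
      omega
    have hX' : Val (X1 ++ (X2.take m ++ X2.drop m)) := by
      rw [List.take_append_drop]; exact hX
    have hY' : Val (Y1 ++ (Y2.take m ++ Y2.drop m)) := by
      rw [List.take_append_drop]; exact hY
    refine hmax (k + m) hj ⟨?_, ?_, ?_, ?_⟩
    · simp only [List.length_append]; omega
    · simp only [List.length_append]; omega
    · rw [cut X1 X2 Y1 Y2 m hX1 hY1]
      exact LAST_.glue _ _ _ _ _ hXm hX' h4
    · rw [cut X1 X2 Y1 Y2 m hX1 hY1]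
      exact LAST_.glue _ _ _ _ _ hYm hY' h3
  · exact hsw2
  · simp only [List.length_append]; omega
  · simp only [List.length_append]; omega
  · change ((X1 ++ Y2) ++ (Y1 ++ X2)).Perm ((X1 ++ X2) ++ (Y1 ++ Y2))
    rw [List.append_assoc, List.append_assoc]
    refine List.Perm.append_left X1 ?_
    calc (Y2 ++ (Y1 ++ X2)).Perm ((Y1 ++ X2) ++ Y2) := List.perm_append_comm
      _ = Y1 ++ (X2 ++ Y2) := by rw [List.append_assoc]
      List.Perm _ (Y1 ++ (X2 ++ Y2)) := List.Perm.refl _
      List.Perm _ ((X2 ++ Y2) ++ Y1) := List.perm_append_comm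
      _ = X2 ++ (Y2 ++ Y1) := by rw [List.append_assoc]
      List.Perm _ (X2 ++ (Y1 ++ Y2)) := List.Perm.append_left X2 List.perm_append_comm

end Frz.Comb
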