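import Pool.Agent.Frz.Comb.Targets

set_option autoImplicit false

namespace Frz.Comb

namespace LEGI_

private lemma getD_glue (A B : List El) (k m : ℕ) (hk : k ≤ A.length) (i : ℕ) (d : El) :
    (A.take k ++ B.drop m).getD i d = if i < k then A.getD i d else B.getD (i - k + m) d := by
  simp only [List.getD_eq_getElem?_getD, List.getElem?_append, List.length_take,
    Nat.min_eq_left hk, List.getElem?_take, List.getElem?_drop]
  by_cases h : i < k
  · simp [h]
  · simp only [h, if_false]
    rw [Nat.add_comm m (i - k)]

private lemma tm_glue (A B : List El) (k m : ℕ) (hk : k ≤ A.length) (i : ℕ) :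
    tm (A.take k ++ B.drop m) i = if i < k then tm A i else tm B (i - k + m) := by
  unfold tm
  rw [getD_glue A B k m hk]
  split_ifs <;> rfl

end LEGI_

open LEGI_ in
/-- LEGI: index form of legality. -/
theorem pLEGI : T_VALI → T_LEGI := by
  rintro ⟨_, hV⟩ X Y p q e k hX hY hlX hlY
  obtain ⟨hXv, hXt⟩ := (hV X p hlX).mp hX
  obtain ⟨hYv, hYt⟩ := (hV Y q hlY).mp hY
  unfold Leg LF sw
  simp only
  rw [hlX, hlY]
  constructor
  · rintro ⟨h1, h2, h3, h4⟩
    have hl1 : (X.take k ++ Y.drop (k + 2 * e)).length = 2 * (q - e) + 1 := by
      rw [List.length_append, List.length_take, List.length_drop, hlX, hlY]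
      omega
    have hl2 : (Y.take (k + 2 * e) ++ X.drop k).length = 2 * (p + e) + 1 := by
      rw [List.length_append, List.length_take, List.length_drop, hlX, hlY]
      omega
    have hv1 := ((hV _ _ hl1).mp h3).1
    have hv2 := ((hV _ _ hl2).mp h4).1
    have t1 := tm_glue X Y k (k + 2 * e) (by omega)
    have t2 := tm_glue Y X (k + 2 * e) k (by omega)
    refine ⟨h1, h2, ?_, ?_⟩
    · intro hodd
      refine ⟨?_, ?_⟩
      · intro hlt
        obtain ⟨i, hi⟩ : ∃ i, k = 2 * i + 1 := ⟨k / 2, by omega⟩
        have h5 := (hv1 i (by omega)).1
        rw [t1, t1, if_neg (by omega), if_pos (by omega)] at h5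
        have e1 : 2 * i + 1 - k + (k + 2 * e) = k + 2 * e := by omega
        have e2 : 2 * i = k - 1 := by omega
        rw [e1, e2] at h5
        exact h5
      · intro hlt
        obtain ⟨i, hi⟩ : ∃ i, k = 2 * i + 1 := ⟨k / 2, by omega⟩
        have h5 := (hv2 (i + e) (by omega)).1
        rw [t2, t2, if_neg (by omega), if_pos (by omega)] at h5
        have e1 : 2 * (i + e) + 1 - (k + 2 * e) + k = k := by omega
        have e2 : 2 * (i + e) = k + 2 * e - 1 := by omega
        rw [e1, e2] at h5
        exact h5
    · intro heven
      refine ⟨?_, ?_⟩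
      · intro hk1
        obtain ⟨i, hi⟩ : ∃ i, k = 2 * i + 2 := ⟨k / 2 - 1, by omega⟩
        have h5 := (hv1 i (by omega)).2
        rw [t1, t1, if_pos (by omega), if_neg (by omega)] at h5
        have e1 : 2 * i + 2 - k + (k + 2 * e) = k + 2 * e := by omega
        have e2 : 2 * i + 1 = k - 1 := by omega
        rw [e1, e2] at h5
        exact h5
      · intro hk1
        obtain ⟨i, hi⟩ : ∃ i, k + 2 * e = 2 * i + 2 := ⟨(k + 2 * e) / 2 - 1, by omega⟩
        have h5 := (hv2 i (by omega)).2
        rw [t2, t2, if_pos (by omega), if_neg (by omega)] at h5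
        have e1 : 2 * i + 2 - (k + 2 * e) + k = k := by omega
        have e2 : 2 * i + 1 = k + 2 * e - 1 := by omega
        rw [e1, e2] at h5
        exact h5
  · rintro ⟨h1, h2, h3, h4⟩
    have hl1 : (X.take k ++ Y.drop (k + 2 * e)).length = 2 * (q - e) + 1 := by
      rw [List.length_append, List.length_take, List.length_drop, hlX, hlY]
      omega
    have hl2 : (Y.take (k + 2 * e) ++ X.drop k).length = 2 * (p + e) + 1 := by
      rw [List.length_append, List.length_take, List.length_drop, hlX, hlY]
      omega
    have t1 := tm_glue X Y k (k + 2 * e) (by omega)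
    have t2 := tm_glue Y X (k + 2 * e) k (by omega)
    have g1 := getD_glue X Y k (k + 2 * e) (by omega)
    have g2 := getD_glue Y X (k + 2 * e) k (by omega)
    refine ⟨h1, h2, (hV _ _ hl1).mpr ⟨?_, ?_⟩, (hV _ _ hl2).mpr ⟨?_, ?_⟩⟩
    · intro i hi
      rw [t1, t1, t1]
      rcases lt_or_ge (2 * i + 2) k with hc | hc
      · -- all in `X`
        rw [if_pos (by omega), if_pos (by omega), if_pos (by omega)]
        exact hXv i (by omega)
      · rcases lt_or_ge (2 * i + 1) k with hc2 | hc2
        · -- `k = 2 i + 2`
          have hk : k = 2 * i + 2 := by omega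
          rw [if_pos (by omega), if_pos (by omega), if_neg (by omega)]
          refine ⟨(hXv i (by omega)).1, ?_⟩
          have h5 := (h4 (by omega)).1 (by omega)
          have e1 : 2 * i + 2 - k + (k + 2 * e) = k + 2 * e := by omega
          have e2 : 2 * i + 1 = k - 1 := by omega
          rw [e1, e2]
          exact h5
        · rcases lt_or_ge (2 * i) k with hc3 | hc3
          · -- `k = 2 i + 1`
            have hk : k = 2 * i + 1 := by omega
            rw [if_neg (by omega), if_pos (by omega), if_neg (by omega)]
            have h5 := (h3 (by omega)).1 (by omega)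
            have e1 : 2 * i + 1 - k + (k + 2 * e) = k + 2 * e := by omega
            have e2 : 2 * i = k - 1 := by omega
            have e3 : 2 * i + 2 - k + (k + 2 * e) = 2 * (i + e) + 2 := by omega
            have e4 : k + 2 * e = 2 * (i + e) + 1 := by omega
            refine ⟨?_, ?_⟩
            · rw [e1, e2]
              exact h5
            · rw [e1, e3, e4]
              exact (hYv (i + e) (by omega)).2
          · -- all in `Y`
            rw [if_neg (by omega), if_neg (by omega), if_neg (by omega)]
            have h5 := hYv (i + e) (by omega)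
            have e1 : 2 * i + 1 - k + (k + 2 * e) = 2 * (i + e) + 1 := by omega
            have e2 : 2 * i - k + (k + 2 * e) = 2 * (i + e) := by omega
            have e3 : 2 * i + 2 - k + (k + 2 * e) = 2 * (i + e) + 2 := by omega
            rw [e1, e2, e3]
            exact h5
    · intro i hi
      rw [g1]
      by_cases hc : i < k
      · rw [if_pos hc]
        exact hXt i (by omega)
      · rw [if_neg hc, hYt _ (by omega)]
        congr 1
        have : (i - k + (k + 2 * e)) % 2 = i % 2 := by omega
        rw [this]
    · intro i hi
      rw [t2, t2, t2]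
      rcases lt_or_ge (2 * i + 2) (k + 2 * e) with hc | hc
      · rw [if_pos (by omega), if_pos (by omega), if_pos (by omega)]
        exact hYv i (by omega)
      · rcases lt_or_ge (2 * i + 1) (k + 2 * e) with hc2 | hc2
        · have hk : k + 2 * e = 2 * i + 2 := by omega
          rw [if_pos (by omega), if_pos (by omega), if_neg (by omega)]
          refine ⟨(hYv i (by omega)).1, ?_⟩
          have h5 := (h4 (by omega)).2 (by omega)
          have e1 : 2 * i + 2 - (k + 2 * e) + k = k := by omega
          have e2 : 2 * i + 1 = k + 2 * e - 1 := by omega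
          rw [e1, e2]
          exact h5
        · rcases lt_or_ge (2 * i) (k + 2 * e) with hc3 | hc3
          · have hk : k + 2 * e = 2 * i + 1 := by omega
            rw [if_neg (by omega), if_pos (by omega), if_neg (by omega)]
            have h5 := (h3 (by omega)).2 (by omega)
            have e1 : 2 * i + 1 - (k + 2 * e) + k = k := by omega
            have e2 : 2 * i = k + 2 * e - 1 := by omega
            have e3 : 2 * i + 2 - (k + 2 * e) + k = 2 * (i - e) + 2 := by omega
            have e4 : 2 * i + 1 - (k + 2 * e) + k = 2 * (i - e) + 1 := by omega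
            refine ⟨?_, ?_⟩
            · rw [e1, e2]
              exact h5
            · rw [e3, e4]
              exact (hXv (i - e) (by omega)).2
          · rw [if_neg (by omega), if_neg (by omega), if_neg (by omega)]
            have h5 := hXv (i - e) (by omega)
            have e1 : 2 * i + 1 - (k + 2 * e) + k = 2 * (i - e) + 1 := by omega
            have e2 : 2 * i - (k + 2 * e) + k = 2 * (i - e) := by omega
            have e3 : 2 * i + 2 - (k + 2 * e) + k = 2 * (i - e) + 2 := by omega
            rw [e1, e2, e3]
            exact h5
    · intro i hi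
      rw [g2]
      by_cases hc : i < k + 2 * e
      · rw [if_pos hc]
        exact hYt i (by omega)
      · rw [if_neg hc, hXt _ (by omega)]
        congr 1
        have : (i - (k + 2 * e) + k) % 2 = i % 2 := by omega
        rw [this]

end Frz.Comb
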