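import Pool.Agent.Frz.Comb.Targets

/-!
# MP_66bb51_pr: LINK, histories of the two sides and pairs of valid sides
-/

set_option autoImplicit false

namespace Frz.Comb

namespace LINK_

lemma spl_map {α β : Type} (f : α → β) (l : List α) :
    spl (l.map f) = (spl l).map (fun ab => (ab.1.map f, ab.2.map f)) := by
  induction l with
  | nil => simp [spl]
  | cons c l ih =>
    simp only [List.map_cons, spl, ih, List.map_append, List.map_map]
    rfl

lemma spl_sub {α : Type} (l : List α) : ∀ ab ∈ spl l, ab.1.Sublist l ∧ ab.2.Sublist l := by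
  induction l with
  | nil =>
    intro ab h
    simp only [spl, List.mem_singleton] at h
    subst h
    exact ⟨List.Sublist.refl _, List.Sublist.refl _⟩
  | cons c l ih =>
    intro ab h
    simp only [spl, List.mem_append, List.mem_map] at h
    rcases h with ⟨ab', h', rfl⟩ | ⟨ab', h', rfl⟩
    · exact ⟨(ih ab' h').1.cons_cons c, (ih ab' h').2.cons c⟩
    · exact ⟨(ih ab' h').1.cons c, (ih ab' h').2.cons_cons c⟩

lemma fst_lab (y : List Bool) : (lab y).map Prod.fst = y := List.zipIdx_map_fst 0 y

lemma count_fst (a : List El) : (a.map Prod.fst).count true = a.countP (fun e => e.1) := by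
  rw [List.count, List.countP_map]
  congr 1
  funext e
  cases h : e.1 <;> simp [Function.comp, h]

lemma pw_lab (y : List Bool) : ((lab y).map Prod.snd).Pairwise (· < ·) := by
  have h : (lab y).map Prod.snd = List.range' 0 y.length := List.zipIdx_map_snd 0 y
  rw [h]
  exact List.pairwise_lt_range' 1

lemma bd_lab (y : List Bool) : ∀ e ∈ lab y, e.2 < y.length := by
  intro e he
  have := List.snd_lt_of_mem_zipIdx he
  simpa using this

lemma nodup_lab (y : List Bool) : (lab y).Nodup := by
  apply List.Nodup.of_map Prod.snd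
  exact (pw_lab y).imp (fun h => ne_of_lt h)

lemma count_fin (top : ℕ) (X : List El) :
    (fin top X).countP (fun e => e.1) = X.countP (fun e => e.1) := by
  unfold fin
  rw [List.countP_filter]
  congr 1
  funext e
  obtain ⟨b, t⟩ := e
  cases b
  · simp
  · simp

end LINK_

open LINK_ in
theorem pLINK : T_VALI → T_PART → T_VV → T_LINK := by
  intro hV hP hVV y p hp
  have h1 : (lab y).countP (fun e => e.1) = y.count true := by
    rw [← count_fst, fst_lab]
  refine ⟨h1, ?_⟩
  have h2 : Np y p = ((spl (lab y)).map (fun ab => if ab.1.countP (fun e => e.1) = p then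
      (VS y.length ab.1).ncard * (VS y.length ab.2).ncard else 0)).sum := by
    have e1 : spl y = (spl (lab y)).map (fun ab => (ab.1.map Prod.fst, ab.2.map Prod.fst)) := by
      rw [← spl_map, fst_lab]
    unfold Np
    rw [e1, List.map_map]
    congr 1
    apply List.map_congr_left
    intro ab hab
    obtain ⟨s1, s2⟩ := spl_sub (lab y) ab hab
    have v1 := hVV y.length ab.1 ((pw_lab y).sublist (s1.map Prod.snd))
      (fun e he => bd_lab y e (s1.subset he))
    have v2 := hVV y.length ab.2 ((pw_lab y).sublist (s2.map Prod.snd))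
      (fun e he => bd_lab y e (s2.subset he))
    show (if (ab.1.map Prod.fst).count true = p then
      NN (ab.1.map Prod.fst) 1 * NN (ab.2.map Prod.fst) 1 else 0) = _
    rw [count_fst, v1, v2]
  have h3 := (hP y.length (lab y) (nodup_lab y) (bd_lab y)).2 p
  rw [h2, ← h3]
  congr 1
  ext P
  constructor
  · rintro ⟨hPr, hc⟩
    obtain ⟨V1, V2, hperm⟩ := hPr
    have l1 := hV.1 P.1 V1
    have l2 := hV.1 P.2 V2
    have hs : P.1.countP (fun e => e.1) + P.2.countP (fun e => e.1) = y.count true := by
      rw [← List.countP_append, ← count_fin y.length (P.1 ++ P.2), hperm.countP_eq, h1]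
    refine ⟨⟨V1, V2, hperm⟩, ?_, ?_⟩
    · rw [l1, hc]
    · rw [l2]
      omega
  · rintro ⟨hPr, hl1, hl2⟩
    refine ⟨hPr, ?_⟩
    have l1 := hV.1 P.1 hPr.1
    rw [hl1] at l1
    show P.1.countP (fun e => e.1) = p
    omega

end Frz.Comb
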