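import Pool.Agent.Frz.Comb.Targets

/-!
# MIN: removing the first label
-/

set_option autoImplicit false

namespace Frz.Comb

open Finset

namespace MIN_

theorem mem_fin {top : ℕ} {X : List El} {e : El} : e ∈ fin top X ↔ e ∈ X ∧ e ≠ (false, top) := by
  unfold fin
  rw [List.mem_filter]
  simp

theorem fin_append (top : ℕ) (X Y : List El) : fin top (X ++ Y) = fin top X ++ fin top Y := by
  unfold fin
  exact List.filter_append _ _

theorem fin_cons {top : ℕ} {e : El} {X : List El} (h : e ≠ (false, top)) :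
    fin top (e :: X) = e :: fin top X := by
  unfold fin
  exact List.filter_cons_of_pos (by simpa using h)

theorem val_single (s : ℕ) : Val [(false, s)] :=
  ⟨List.isChain_singleton _, ⟨s, rfl⟩, ⟨s, rfl⟩⟩

/-- no separators: length one -/
theorem eq_single (hV : T_VALI) {X : List El} (hX : Val X) (h : ∀ e ∈ X, e.1 = false) :
    ∃ s, X = [(false, s)] := by
  have h1 := hV.1 X hX
  have h2 : X.countP (fun e => e.1) = 0 := by
    rw [List.countP_eq_zero]
    intro e he
    rw [h e he]
    exact Bool.false_ne_true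
  rw [h2] at h1
  obtain ⟨e, rfl⟩ := List.length_eq_one_iff.1 h1
  have h3 := h e (List.mem_singleton.2 rfl)
  exact ⟨e.2, by rw [← h3]⟩

/-- the labels of a side -/
theorem mem_cases {top : ℕ} {X a : List El} (h : (fin top X).Perm a) {e : El} (he : e ∈ X) :
    e = (false, top) ∨ e ∈ a := by
  by_cases h1 : e = (false, top)
  · exact Or.inl h1
  · exact Or.inr (h.mem_iff.1 (mem_fin.2 ⟨he, h1⟩))

theorem vs_nil (hV : T_VALI) (top : ℕ) : VS top [] = {[(false, top)]} := by
  ext X
  rw [Set.mem_singleton_iff]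
  constructor
  · rintro ⟨h1, h2⟩
    have h3 : ∀ e ∈ X, e = (false, top) := by
      intro e he
      rcases mem_cases h2 he with h | h
      · exact h
      · exact absurd h List.not_mem_nil
    obtain ⟨s, rfl⟩ := eq_single hV h1 (fun e he => by rw [h3 e he])
    rw [h3 _ (List.mem_singleton.2 rfl)]
  · rintro rfl
    refine ⟨val_single top, ?_⟩
    have : fin top [(false, top)] = [] := by
      unfold fin
      simp
    rw [this]

theorem vs_leaf (hV : T_VALI) {top t : ℕ} (ht : t < top) :
    VS top [(false, t)] = {[(false, t)]} := by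
  ext X
  rw [Set.mem_singleton_iff]
  constructor
  · rintro ⟨h1, h2⟩
    have h3 : ∀ e ∈ X, e.1 = false := by
      intro e he
      rcases mem_cases h2 he with h | h
      · rw [h]
      · rw [List.mem_singleton.1 h]
    obtain ⟨s, rfl⟩ := eq_single hV h1 h3
    have h4 : (false, t) ∈ fin top [(false, s)] := h2.mem_iff.2 (List.mem_singleton.2 rfl)
    have h5 := List.mem_singleton.1 (mem_fin.1 h4).1
    rw [h5]
  · rintro rfl
    refine ⟨val_single t, ?_⟩
    rw [fin_cons]
    · exact List.Perm.refl _
    · intro h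
      have := congrArg Prod.snd h
      exact ht.ne this

theorem vs_empty {top t : ℕ} {a : List El} (h1 : ∀ e ∈ a, t < e.2) (ht : t < top)
    (ha : a ≠ []) : VS top ((false, t) :: a) = ∅ := by
  rw [Set.eq_empty_iff_forall_notMem]
  rintro X ⟨hX, hp⟩
  have hne : ((false, t) : El) ≠ (false, top) := by
    intro h
    exact ht.ne (congrArg Prod.snd h)
  have hmem : (false, t) ∈ X := (mem_fin.1 (hp.mem_iff.2 List.mem_cons_self)).1
  obtain ⟨X1, X2, rfl⟩ := List.append_of_mem hmem
  have hlen : 2 ≤ (X1 ++ (false, t) :: X2).length := by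
    have e1 := hp.length_eq
    have e2 : (fin top (X1 ++ (false, t) :: X2)).length ≤ (X1 ++ (false, t) :: X2).length :=
      List.length_filter_le _ _
    rw [List.length_cons] at e1
    have e3 := List.length_pos_iff.2 ha
    omega
  obtain ⟨hc, -, -⟩ := hX
  obtain ⟨c1, c2, c3⟩ := List.isChain_append.1 hc
  obtain ⟨c4, c5⟩ := List.isChain_cons.1 c2
  -- a neighbour is a separator with a smaller time
  have key : ∀ e : El, e ∈ X1 ++ (false, t) :: X2 → e.1 = true → e.2 < t → False := by
    intro e he e1 e2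
    rcases mem_cases hp he with h | h
    · rw [h] at e1
      exact Bool.false_ne_true e1
    · rcases List.mem_cons.1 h with h | h
      · rw [h] at e1
        exact Bool.false_ne_true e1
      · have := h1 e h
        omega
  rcases X2 with _ | ⟨y, X2⟩
  · rcases List.eq_nil_or_concat X1 with h | ⟨Z, z, h⟩
    · rw [h] at hlen
      simp at hlen
    · have hz : z ∈ X1.getLast? := by
        rw [h, List.concat_eq_append, List.getLast?_append]
        simp
      have e1 := c3 z hz (false, t) (by simp)
      have hzX : z ∈ X1 := List.mem_of_getLast? hz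
      rcases e1 with ⟨q1, -, q3⟩ | ⟨-, q2, -⟩
      · exact key z (List.mem_append_left _ hzX) q1 q3
      · exact Bool.false_ne_true q2
  · have e1 := c4 y (by simp)
    rcases e1 with ⟨q1, -, -⟩ | ⟨-, q2, q3⟩
    · exact Bool.false_ne_true q1
    · exact key y (by simp) q2 q3

theorem not_mem_of {top t : ℕ} {a X : List El} (h1 : ∀ e ∈ a, t < e.2) (h : ∀ e ∈ X, e ∈ fin top X →
    e ∈ a) : ((true, t) : El) ∉ X := by
  intro hm
  have h2 : ((true, t) : El) ∈ fin top X := mem_fin.2 ⟨hm, fun h => by
    have := congrArg Prod.fst h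
    exact Bool.false_ne_true this.symm⟩
  have := h1 _ (h _ hm h2)
  exact lt_irrefl _ this

theorem vs_cons {top t : ℕ} {a : List El} (h1 : ∀ e ∈ a, t < e.2) (ht : t < top) :
    VS top ((true, t) :: a) =
      (fun P : List El × List El => P.1 ++ (true, t) :: P.2) '' Pr top a := by
  have hne : ((true, t) : El) ≠ (false, top) := by
    intro h
    exact Bool.false_ne_true (congrArg Prod.fst h).symm
  ext X
  constructor
  · rintro ⟨hX, hp⟩
    have hmem : (true, t) ∈ X := (mem_fin.1 (hp.mem_iff.2 List.mem_cons_self)).1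
    obtain ⟨X1, X2, rfl⟩ := List.append_of_mem hmem
    obtain ⟨hc, ⟨s1, hh⟩, ⟨s2, hl⟩⟩ := hX
    obtain ⟨c1, c2, c3⟩ := List.isChain_append.1 hc
    obtain ⟨c4, c5⟩ := List.isChain_cons.1 c2
    refine ⟨(X1, X2), ⟨⟨c1, ?_, ?_⟩, ⟨c5, ?_, ?_⟩, ?_⟩, rfl⟩
    · rcases X1 with _ | ⟨x, X1⟩
      · simp at hh
      · exact ⟨s1, by simpa using hh⟩
    · rcases List.eq_nil_or_concat X1 with h | ⟨Z, z, h⟩
      · rw [h] at hh
        simp at hh
      · have hz : z ∈ X1.getLast? := by
          rw [h, List.concat_eq_append, List.getLast?_append]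
          simp
        rcases c3 z hz (true, t) (by simp) with ⟨-, q2, -⟩ | ⟨q1, -, -⟩
        · exact absurd q2.symm Bool.false_ne_true
        · refine ⟨z.2, ?_⟩
          have hz' : X1.getLast? = some z := hz
          show X1.getLast? = some (false, z.2)
          rw [hz', ← q1]
    · rcases X2 with _ | ⟨y, X2⟩
      · simp at hl
      · rcases c4 y (by simp) with ⟨-, q2, -⟩ | ⟨q1, -, -⟩
        · refine ⟨y.2, ?_⟩
          show (y :: X2).head? = some (false, y.2)
          rw [List.head?_cons, ← q2]
        · exact absurd q1.symm Bool.false_ne_true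
    · rcases X2 with _ | ⟨y, X2⟩
      · simp at hl
      · refine ⟨s2, ?_⟩
        show (y :: X2).getLast? = some (false, s2)
        rw [← hl, List.getLast?_append_of_ne_nil _ (by simp)]
        rw [List.getLast?_cons_cons]
    · show (fin top (X1 ++ X2)).Perm a
      rw [fin_append, fin_cons hne] at hp
      rw [fin_append]
      exact (List.perm_middle.symm.trans hp).cons_inv
  · rintro ⟨⟨X1, X2⟩, ⟨⟨c1, ⟨s1, hh1⟩, ⟨s2, hl1⟩⟩, ⟨c2, ⟨s3, hh2⟩, ⟨s4, hl2⟩⟩, hp⟩, rfl⟩
    simp only at c1 hh1 hl1 c2 hh2 hl2 hp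
    show Val (X1 ++ (true, t) :: X2) ∧ (fin top (X1 ++ (true, t) :: X2)).Perm ((true, t) :: a)
    have hX1 : X1 ≠ [] := by
      rintro rfl
      simp at hh1
    have hX2 : X2 ≠ [] := by
      rintro rfl
      simp at hh2
    have hlt : ∀ s, (false, s) ∈ X1 ++ X2 → t < s := by
      intro s hs
      rcases mem_cases hp hs with h | h
      · have := congrArg Prod.snd h
        simp only at this
        omega
      · exact h1 _ h
    refine ⟨⟨?_, ⟨s1, ?_⟩, ⟨s4, ?_⟩⟩, ?_⟩
    · rw [List.isChain_append, List.isChain_cons]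
      refine ⟨c1, ⟨?_, c2⟩, ?_⟩
      · intro y hy
        rw [hh2] at hy
        have hy' : (false, s3) = y := Option.some_injective _ hy
        subst hy'
        exact Or.inl ⟨rfl, rfl, hlt s3 (List.mem_append_right _ (List.mem_of_head? hh2))⟩
      · intro x hx y hy
        rw [hl1] at hx
        have hx' : (false, s2) = x := Option.some_injective _ hx
        subst hx'
        rw [List.head?_cons] at hy
        have hy' : (true, t) = y := Option.some_injective _ hy
        subst hy'
        exact Or.inr ⟨rfl, rfl, hlt s2 (List.mem_append_left _ (List.mem_of_getLast? hl1))⟩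
    · rw [List.head?_append_of_ne_nil _ hX1, hh1]
    · rw [List.getLast?_append_of_ne_nil _ (by simp)]
      obtain ⟨y, Y, rfl⟩ := List.exists_cons_of_ne_nil hX2
      rw [List.getLast?_cons_cons, hl2]
    · rw [fin_append, fin_cons hne]
      rw [fin_append] at hp
      exact List.perm_middle.trans (hp.cons _)

end MIN_

open MIN_ in
theorem pMIN (hV : T_VALI) : T_MIN := by
  intro top t a h1 h2 ht
  refine ⟨?_, ?_, ?_, ?_⟩
  · rw [vs_nil hV, Set.ncard_singleton]
  · rw [vs_cons h1 ht]
    apply Set.InjOn.ncard_image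
    rintro ⟨X1, X2⟩ ⟨-, -, hp⟩ ⟨Y1, Y2⟩ ⟨-, -, hp'⟩ heq
    simp only at hp hp' heq
    have hn1 : ((true, t) : El) ∉ X1 ++ X2 := not_mem_of (top := top) h1
      (fun e _ he => hp.mem_iff.1 he)
    have h3 : ((true, t) : El) ∉ X1 := fun h => hn1 (List.mem_append_left _ h)
    have h4 : ((true, t) : El) ∉ X2 := fun h => hn1 (List.mem_append_right _ h)
    obtain ⟨e1, -, e3⟩ := (List.append_cons_inj_of_notMem h3 h4).1 heq
    rw [e1, e3]
  · rw [vs_leaf hV ht, Set.ncard_singleton]
  · intro ha
    rw [vs_empty h1 ht ha, Set.ncard_empty]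

end Frz.Comb
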