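import Pool.Agent.Frz.Comb.Targets

/-!
# MP_66bb51_pr, PART: the pairs of sides are distributed over the splits of the labels
-/

set_option autoImplicit false

namespace Frz.Comb

open Finset

namespace PART_

theorem spl_perm {α : Type} (w : List α) : ∀ ab ∈ spl w, (ab.1 ++ ab.2).Perm w ∧
    ab.1.Sublist w ∧ ab.2.Sublist w := by
  induction w with
  | nil =>
    intro ab hab
    simp only [spl, List.mem_singleton] at hab
    subst hab
    simp
  | cons c y ih =>
    intro ab hab
    simp only [spl, List.mem_append, List.mem_map] at hab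
    rcases hab with ⟨q, hq, rfl⟩ | ⟨q, hq, rfl⟩
    · obtain ⟨h1, h2, h3⟩ := ih q hq
      refine ⟨?_, ?_, ?_⟩
      · simpa using List.Perm.cons c h1
      · exact List.Sublist.cons_cons c h2
      · exact List.Sublist.cons c h3
    · obtain ⟨h1, h2, h3⟩ := ih q hq
      refine ⟨?_, ?_, ?_⟩
      · exact (List.perm_middle).trans (List.Perm.cons c h1)
      · exact List.Sublist.cons c h2
      · exact List.Sublist.cons_cons c h3

theorem spl_nodup {α : Type} (w : List α) (hw : w.Nodup) : (spl w).Nodup := by
  induction w with
  | nil => simp [spl]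
  | cons c y ih =>
    rw [List.nodup_cons] at hw
    have h := ih hw.2
    simp only [spl]
    rw [List.nodup_append]
    refine ⟨?_, ?_, ?_⟩
    · refine h.map ?_
      rintro ⟨a, b⟩ ⟨a', b'⟩ h'
      simp only [Prod.mk.injEq, List.cons.injEq, true_and] at h'
      rw [h'.1, h'.2]
    · refine h.map ?_
      rintro ⟨a, b⟩ ⟨a', b'⟩ h'
      simp only [Prod.mk.injEq, List.cons.injEq, true_and] at h'
      rw [h'.1, h'.2]
    · intro u hu v hv huv
      subst huv
      simp only [List.mem_map] at hu hv
      obtain ⟨q, hq, rfl⟩ := hu
      obtain ⟨q', hq', h'⟩ := hv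
      simp only [Prod.mk.injEq] at h'
      have h2 := (spl_perm y q hq).2.2
      rw [← h'.2] at h2
      exact hw.1 (h2.subset (by simp))

theorem mem_spl_filter {α : Type} (w : List α) (p : α → Bool) :
    (w.filter p, w.filter (fun e => !p e)) ∈ spl w := by
  induction w with
  | nil => simp [spl]
  | cons c y ih =>
    simp only [spl, List.mem_append, List.mem_map]
    cases hc : p c
    · right
      exact ⟨_, ih, by simp [hc]⟩
    · left
      exact ⟨_, ih, by simp [hc]⟩

theorem spl_eq_filter {α : Type} [DecidableEq α] (w : List α) (hw : w.Nodup) :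
    ∀ ab ∈ spl w, w.filter (fun e => decide (e ∈ ab.1)) = ab.1 ∧
      w.filter (fun e => !decide (e ∈ ab.1)) = ab.2 := by
  induction w with
  | nil =>
    intro ab hab
    simp only [spl, List.mem_singleton] at hab
    subst hab
    simp
  | cons c y ih =>
    intro ab hab
    rw [List.nodup_cons] at hw
    simp only [spl, List.mem_append, List.mem_map] at hab
    rcases hab with ⟨q, hq, rfl⟩ | ⟨q, hq, rfl⟩
    · obtain ⟨h1, h2⟩ := ih hw.2 q hq
      have e1 : y.filter (fun e => decide (e ∈ c :: q.1)) = y.filter (fun e => decide (e ∈ q.1)) := by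
        refine List.filter_congr ?_
        intro e he
        have : e ≠ c := fun h => hw.1 (h ▸ he)
        simp [this]
      have e2 : y.filter (fun e => !decide (e ∈ c :: q.1)) =
          y.filter (fun e => !decide (e ∈ q.1)) := by
        refine List.filter_congr ?_
        intro e he
        have : e ≠ c := fun h => hw.1 (h ▸ he)
        simp [this]
      constructor
      · show List.filter (fun e => decide (e ∈ c :: q.1)) (c :: y) = c :: q.1
        rw [List.filter_cons_of_pos (by simp), e1, h1]
      · show List.filter (fun e => !decide (e ∈ c :: q.1)) (c :: y) = q.2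
        rw [List.filter_cons_of_neg (by simp), e2, h2]
    · obtain ⟨h1, h2⟩ := ih hw.2 q hq
      have hcq : c ∉ q.1 := fun h => hw.1 ((spl_perm y q hq).2.1.subset h)
      constructor
      · show List.filter (fun e => decide (e ∈ q.1)) (c :: y) = q.1
        rw [List.filter_cons_of_neg (by simp [hcq]), h1]
      · show List.filter (fun e => !decide (e ∈ q.1)) (c :: y) = c :: q.2
        rw [List.filter_cons_of_pos (by simp [hcq]), h2]

theorem mem_fin (top : ℕ) (X : List El) (e : El) : e ∈ fin top X ↔ e ∈ X ∧ e ≠ (false, top) := by
  simp only [fin, List.mem_filter, decide_eq_true_eq]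

theorem fin_append (top : ℕ) (X Y : List El) : fin top (X ++ Y) = fin top X ++ fin top Y := by
  simp only [fin, List.filter_append]

theorem countP_fin (top : ℕ) (X : List El) :
    (fin top X).countP (fun e => e.1) = X.countP (fun e => e.1) := by
  rw [fin, List.countP_filter]
  refine List.countP_congr ?_
  rintro ⟨b, t⟩ _
  cases b <;> simp

/-- the split of a pair of sides -/
def g (w : List El) (P : List El × List El) : List El × List El :=
  (w.filter (fun e => decide (e ∈ P.1)), w.filter (fun e => !decide (e ∈ P.1)))

theorem fiber (top : ℕ) (w : List El) (hw : w.Nodup) (hlt : ∀ e ∈ w, e.2 < top)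
    (ab : List El × List El) (hab : ab ∈ spl w) (P : List El × List El) :
    (P ∈ Pr top w ∧ g w P = ab) ↔ (P.1 ∈ VS top ab.1 ∧ P.2 ∈ VS top ab.2) := by
  constructor
  · rintro ⟨⟨h1, h2, h3⟩, h4⟩
    subst h4
    rw [fin_append] at h3
    have hnd : (fin top P.1 ++ fin top P.2).Nodup := h3.nodup_iff.2 hw
    have hdis : ∀ e ∈ fin top P.2, e ∉ P.1 := by
      intro e he he'
      have h5 := (List.nodup_append.1 hnd).2.2
      have h6 := (mem_fin top P.2 e).1 he
      exact h5 e ((mem_fin top P.1 e).2 ⟨he', h6.2⟩) e he rfl
    refine ⟨⟨h1, ?_⟩, ⟨h2, ?_⟩⟩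
    · have h5 := h3.filter (fun e => decide (e ∈ P.1))
      rw [List.filter_append] at h5
      have h6 : (fin top P.1).filter (fun e => decide (e ∈ P.1)) = fin top P.1 := by
        rw [List.filter_eq_self]
        intro e he
        simpa using ((mem_fin top P.1 e).1 he).1
      have h7 : (fin top P.2).filter (fun e => decide (e ∈ P.1)) = [] := by
        rw [List.filter_eq_nil_iff]
        intro e he
        simpa using hdis e he
      rw [h6, h7, List.append_nil] at h5
      exact h5
    · have h5 := h3.filter (fun e => !decide (e ∈ P.1))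
      rw [List.filter_append] at h5
      have h6 : (fin top P.1).filter (fun e => !decide (e ∈ P.1)) = [] := by
        rw [List.filter_eq_nil_iff]
        intro e he
        simpa using ((mem_fin top P.1 e).1 he).1
      have h7 : (fin top P.2).filter (fun e => !decide (e ∈ P.1)) = fin top P.2 := by
        rw [List.filter_eq_self]
        intro e he
        simpa using hdis e he
      rw [h6, h7, List.nil_append] at h5
      exact h5
  · rintro ⟨⟨h1, h2⟩, ⟨h3, h4⟩⟩
    refine ⟨⟨h1, h3, ?_⟩, ?_⟩
    · rw [fin_append]
      exact (h2.append h4).trans (spl_perm w ab hab).1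
    · have hiff : ∀ e ∈ w, (e ∈ P.1 ↔ e ∈ ab.1) := by
        intro e he
        rw [← h2.mem_iff, mem_fin]
        refine ⟨fun h => ⟨h, ?_⟩, fun h => h.1⟩
        intro h5
        have := hlt e he
        rw [h5] at this
        simp at this
      obtain ⟨h5, h6⟩ := spl_eq_filter w hw ab hab
      refine Prod.ext ?_ ?_
      · refine Eq.trans ?_ h5
        refine List.filter_congr ?_
        intro e he
        simp [hiff e he]
      · refine Eq.trans ?_ h6
        refine List.filter_congr ?_
        intro e he
        simp [hiff e he]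

theorem main (hfin : T_FIN) (top : ℕ) (w : List El) (hw : w.Nodup) (hlt : ∀ e ∈ w, e.2 < top)
    (φ : ℕ → Prop) [DecidablePred φ] :
    {P | P ∈ Pr top w ∧ φ (P.1.countP (fun e => e.1))}.ncard =
    ((spl w).map (fun ab => if φ (ab.1.countP (fun e => e.1)) then
      (VS top ab.1).ncard * (VS top ab.2).ncard else 0)).sum := by
  classical
  have hf : {P | P ∈ Pr top w ∧ φ (P.1.countP (fun e => e.1))}.Finite :=
    (hfin top w).2.1.subset fun P hP => hP.1
  rw [Set.ncard_eq_toFinset_card _ hf]
  rw [Finset.card_eq_sum_card_fiberwise (f := g w) (t := (spl w).toFinset)]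
  · rw [← List.sum_toFinset _ (spl_nodup w hw)]
    refine Finset.sum_congr rfl ?_
    intro ab hab
    rw [List.mem_toFinset] at hab
    rw [← Set.ncard_coe_finset]
    have key : ((hf.toFinset.filter fun P => g w P = ab : Finset (List El × List El)) :
        Set (List El × List El)) =
        if φ (ab.1.countP (fun e => e.1)) then VS top ab.1 ×ˢ VS top ab.2 else ∅ := by
      ext P
      have h1 : P.1 ∈ VS top ab.1 → P.1.countP (fun e => e.1) = ab.1.countP (fun e => e.1) := by
        intro h
        rw [← countP_fin top P.1]
        exact h.2.countP_eq _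
      have h2 := fiber top w hw hlt ab hab P
      simp only [Finset.coe_filter, Set.Finite.mem_toFinset, Set.mem_ofPred_eq]
      split_ifs with hφ
      · simp only [Set.mem_prod]
        constructor
        · rintro ⟨⟨h3, _⟩, h4⟩
          exact h2.1 ⟨h3, h4⟩
        · intro h3
          have h4 := h2.2 h3
          refine ⟨⟨h4.1, ?_⟩, h4.2⟩
          rw [h1 h3.1]
          exact hφ
      · simp only [Set.mem_empty_iff_false, iff_false]
        rintro ⟨⟨h3, h5⟩, h4⟩
        have h6 := h2.1 ⟨h3, h4⟩
        rw [h1 h6.1] at h5
        exact hφ h5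
    rw [key]
    split_ifs with hφ
    · rw [Set.ncard_prod]
    · simp
  · intro P _
    rw [Finset.mem_coe, List.mem_toFinset]
    exact mem_spl_filter w _

end PART_

/-- PART: the pairs of sides are distributed over the splits of the labels. -/
theorem pPART : T_VALI → T_FIN → T_PART := by
  intro _ hfin top w hw hlt
  refine ⟨?_, ?_⟩
  · have h := PART_.main hfin top w hw hlt (fun _ => True)
    simpa using h
  · intro p
    exact PART_.main hfin top w hw hlt (fun n => n = p)

end Frz.Comb
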