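import Pool.Agent.Frz.Comb.Targets

/-!
POS: the words of `𝕏_n` have histories.
-/

set_option autoImplicit false

namespace Frz.Comb

namespace POS_

theorem claim : ∀ (x : List Bool) (k : ℕ), (∀ j < x.length, (k : ℤ) +
    ((x.take j).map (fun b => if b = true then (1 : ℤ) else -1)).sum ≠ 0) → 0 < NN x k := by
  intro x
  induction x with
  | nil => intro k _; exact Nat.one_pos
  | cons c y ih =>
    intro k h
    have hk : 0 < k := by
      have h0 := h 0 (by simp)
      simp at h0
      omega
    cases c with
    | true =>
      have h1 : 0 < NN y (k + 1) := by
        apply ih
        intro j hj
        have h2 := h (j + 1) (by simpa using hj)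
        simp only [List.take_succ_cons, List.map_cons, if_true, List.sum_cons] at h2
        push_cast
        rw [add_assoc]
        exact h2
      exact Nat.mul_pos hk h1
    | false =>
      have h1 : 0 < NN y (k - 1) := by
        apply ih
        intro j hj
        have h2 := h (j + 1) (by simpa using hj)
        simp only [List.take_succ_cons, List.map_cons, List.sum_cons, Bool.false_eq_true,
          if_false] at h2
        rw [Nat.cast_sub hk]
        push_cast
        intro h3
        apply h2
        linarith
      exact Nat.mul_pos hk h1

end POS_

/-- POS: the words of `𝕏_n` have histories. -/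
theorem pPOS : T_POS := by
  intro n x hx
  apply POS_.claim
  intro j hj
  rcases Nat.eq_zero_or_pos j with h0 | h0
  · subst h0
    simp
  · have := hx.2 j h0 hj
    unfold S at this
    exact_mod_cast this

end Frz.Comb
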