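import Pool.Agent.Frz.Comb.Targets

/-!
# MP_66bb51_pr: the all-plus word
-/

set_option autoImplicit false

namespace Frz.Comb

namespace RR_

open Finset

theorem nn_rep (n : ℕ) : ∀ k : ℕ, NN (List.replicate n true) k = k.ascFactorial n := by
  induction n with
  | zero => intro k; simp [NN]
  | succ n ih =>
    intro k
    rw [List.replicate_succ, NN, ih, Nat.ascFactorial_succ]
    exact Nat.succ_ascFactorial k n

theorem spl_rep (n : ℕ) : ∀ f : List Bool × List Bool → ℕ,
    ((spl (List.replicate n true)).map f).sum =
      ∑ i ∈ range (n + 1), n.choose i * f (List.replicate i true, List.replicate (n - i) true) := by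
  induction n with
  | zero => intro f; simp [spl]
  | succ n ih =>
    intro f
    have h1 : ((spl (List.replicate (n + 1) true)).map f).sum =
        ((spl (List.replicate n true)).map (fun ab => f (true :: ab.1, ab.2))).sum +
        ((spl (List.replicate n true)).map (fun ab => f (ab.1, true :: ab.2))).sum := by
      rw [List.replicate_succ, spl, List.map_append, List.sum_append, List.map_map, List.map_map]
      rfl
    rw [h1, ih, ih]
    have h2 : ∑ i ∈ range (n + 1 + 1), (n + 1).choose i *
          f (List.replicate i true, List.replicate (n + 1 - i) true) =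
        ∑ i ∈ range (n + 1), n.choose i *
          f (List.replicate (i + 1) true, List.replicate (n - i) true) +
        ∑ i ∈ range (n + 1 + 1), n.choose i *
          f (List.replicate i true, List.replicate (n + 1 - i) true) := by
      rw [Finset.sum_range_succ', Finset.sum_range_succ' _ (n + 1), ← add_assoc,
        ← Finset.sum_add_distrib, Nat.choose_zero_right, Nat.choose_zero_right]
      congr 1
      refine Finset.sum_congr rfl fun i _ => ?_
      rw [Nat.choose_succ_succ, Nat.add_sub_add_right, add_mul]
    have h3 : ∑ i ∈ range (n + 1 + 1), n.choose i *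
          f (List.replicate i true, List.replicate (n + 1 - i) true) =
        ∑ i ∈ range (n + 1), n.choose i *
          f (List.replicate i true, true :: List.replicate (n - i) true) := by
      rw [Finset.sum_range_succ, Nat.choose_succ_self, zero_mul, add_zero]
      refine Finset.sum_congr rfl fun i hi => ?_
      have hi' : i ≤ n := Nat.lt_succ_iff.mp (mem_range.mp hi)
      rw [Nat.succ_sub hi', List.replicate_succ]
    rw [h2, h3]
    congr 1

theorem cc_step (h : T_ADD) (k : ℕ) (y : List Bool) :
    CC (k + 1) (true :: y) = ((spl y).map (fun ab => CC (k + 1) ab.1 * CC k ab.2)).sum := by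
  rcases Nat.eq_zero_or_pos k with rfl | hk
  · simp [CC, cc]
  · have e : ∀ x : List Bool, CC k x = cc x {k - 1} := by
      intro x; simp [CC, hk.ne']
    have e1 : ∀ x : List Bool, CC (k + 1) x = cc x {k} := by
      intro x; simp [CC]
    have e2 : cc (true :: y) {k} = cc y ({k} + {k - 1}) := by
      rw [cc, Multiset.map_singleton, Multiset.sum_singleton, if_neg hk.ne', add_comm,
        Multiset.singleton_add]
    rw [e1, e2, h.2]
    simp only [e, e1]

theorem ff_rec (h : T_ADD) (k n : ℕ) : ((n : ℝ) + 1) * FF (k + 1) (n + 1) =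
    ∑ i ∈ range (n + 1), FF (k + 1) i * FF k (n - i) := by
  have h1 := cc_step h k (List.replicate n true)
  rw [spl_rep n (fun ab => CC (k + 1) ab.1 * CC k ab.2)] at h1
  have h0 : (n.factorial : ℝ) ≠ 0 := by exact_mod_cast n.factorial_ne_zero
  have h2 : ((n : ℝ) + 1) * FF (k + 1) (n + 1) =
      (CC (k + 1) (true :: List.replicate n true) : ℝ) / (n.factorial : ℝ) := by
    have h3 : ((n : ℝ) + 1) ≠ 0 := by positivity
    rw [FF, List.replicate_succ, Nat.factorial_succ]
    push_cast
    field_simp
  rw [h2, h1]
  push_cast
  rw [Finset.sum_div]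
  refine Finset.sum_congr rfl fun i hi => ?_
  have hi' : i ≤ n := Nat.lt_succ_iff.mp (mem_range.mp hi)
  have h4 : (n.choose i : ℝ) * (i.factorial : ℝ) * ((n - i).factorial : ℝ) = (n.factorial : ℝ) := by
    exact_mod_cast Nat.choose_mul_factorial_mul_factorial hi'
  have h5 : (i.factorial : ℝ) ≠ 0 := by exact_mod_cast i.factorial_ne_zero
  have h6 : ((n - i).factorial : ℝ) ≠ 0 := by exact_mod_cast (n - i).factorial_ne_zero
  rw [FF, FF, div_mul_div_comm, div_eq_div_iff h0 (mul_ne_zero h5 h6), ← h4]
  ring

end RR_

theorem pRR : T_ADD → T_RR := by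
  intro h
  refine ⟨⟨?_, ?_, RR_.ff_rec h⟩, ?_⟩
  · intro n; simp [FF, CC]
  · intro k; simp [FF, CC, cc]
  · intro n; rw [RR_.nn_rep, Nat.one_ascFactorial]

end Frz.Comb
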