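import Pool.Agent.Frz.Comb.Targets

/-!
# MP_66bb51_pr: index form of validity
-/

set_option autoImplicit false

namespace Frz.Comb

open Finset

namespace VALI_

theorem val_single (a : El) : Val [a] ↔ a.1 = false := by
  constructor
  · rintro ⟨-, ⟨t, ht⟩, -⟩
    simp only [List.head?_cons, Option.some.injEq] at ht
    rw [ht]
  · intro h
    have ha : a = (false, a.2) := Prod.ext h rfl
    refine ⟨by simp, ⟨a.2, ?_⟩, ⟨a.2, ?_⟩⟩
    · simpa using ha
    · simpa using ha

theorem val_cons (a b : El) (Y : List El) : Val (a :: b :: Y) ↔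
    (a.1 = false ∧ b.1 = true ∧ b.2 < a.2) ∧ (∃ c Z, Y = c :: Z ∧ b.2 < c.2) ∧ Val Y := by
  constructor
  · rintro ⟨hc, ⟨t, ht⟩, ⟨t', ht'⟩⟩
    simp only [List.head?_cons, Option.some.injEq] at ht
    rw [List.isChain_cons_cons] at hc
    obtain ⟨hab, hc⟩ := hc
    have hab' : b.1 = true ∧ b.2 < a.2 := by
      rcases hab with ⟨h, -, -⟩ | ⟨-, h, h'⟩
      · rw [ht] at h
        exact absurd h (by simp)
      · exact ⟨h, h'⟩
    rcases Y with _ | ⟨c, Z⟩
    · exfalso
      simp only [List.getLast?_cons_cons, List.getLast?_singleton, Option.some.injEq] at ht'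
      rw [ht'] at hab'
      exact absurd hab'.1 (by simp)
    · rw [List.isChain_cons_cons] at hc
      obtain ⟨hbc, hc⟩ := hc
      have hbc' : c.1 = false ∧ b.2 < c.2 := by
        rcases hbc with ⟨-, h, h'⟩ | ⟨h, -, -⟩
        · exact ⟨h, h'⟩
        · rw [hab'.1] at h
          exact absurd h (by simp)
      refine ⟨⟨by rw [ht], hab'.1, hab'.2⟩, ⟨c, Z, rfl, hbc'.2⟩, hc, ⟨c.2, ?_⟩, ⟨t', ?_⟩⟩
      · simp only [List.head?_cons, Option.some.injEq]
        exact Prod.ext hbc'.1 rfl
      · rw [← ht']
        simp only [List.getLast?_cons_cons]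
  · rintro ⟨⟨ha, hb, hab⟩, ⟨c, Z, rfl, hbc⟩, hc, ⟨t, ht⟩, ⟨t', ht'⟩⟩
    simp only [List.head?_cons, Option.some.injEq] at ht
    refine ⟨?_, ⟨a.2, ?_⟩, ⟨t', ?_⟩⟩
    · rw [List.isChain_cons_cons, List.isChain_cons_cons]
      refine ⟨Or.inr ⟨ha, hb, hab⟩, Or.inl ⟨hb, ?_, hbc⟩, hc⟩
      rw [ht]
    · simp only [List.head?_cons, Option.some.injEq]
      exact Prod.ext ha rfl
    · rw [← ht']
      simp only [List.getLast?_cons_cons]

theorem not_nil : ¬ Val [] := by
  rintro ⟨-, ⟨t, ht⟩, -⟩
  simp at ht

theorem len : ∀ (n : ℕ) (X : List El), X.length ≤ n → Val X →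
    X.length = 2 * (X.countP (fun e => e.1)) + 1 := by
  intro n
  induction n using Nat.strong_induction_on with
  | _ n ih =>
    intro X hX hV
    match X, hX, hV with
    | [], _, hV => exact absurd hV not_nil
    | [a], _, hV =>
      rw [val_single] at hV
      simp [hV]
    | a :: b :: Y, hX, hV =>
      rw [val_cons] at hV
      obtain ⟨⟨ha, hb, -⟩, -, hY⟩ := hV
      have h1 := ih Y.length (by simp at hX; omega) Y le_rfl hY
      rw [List.length_cons, List.length_cons, List.countP_cons, List.countP_cons, ha, hb, h1]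
      simp
      ring

theorem idx : ∀ (p : ℕ) (X : List El), X.length = 2 * p + 1 →
    (Val X ↔ (VF p (tm X) ∧ ∀ i < 2 * p + 1, (X.getD i (true, 0)).1 = decide (i % 2 = 1))) := by
  intro p
  induction p with
  | zero =>
    intro X hX
    rw [Nat.mul_zero, Nat.zero_add, List.length_eq_one_iff] at hX
    obtain ⟨a, rfl⟩ := hX
    rw [val_single]
    constructor
    · intro h
      refine ⟨fun i hi => absurd hi (Nat.not_lt_zero i), fun i hi => ?_⟩
      have hi0 : i = 0 := by omega
      subst hi0
      simpa using h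
    · rintro ⟨-, h⟩
      simpa using h 0 (by omega)
  | succ p ih =>
    intro X hX
    match X, hX with
    | [], hX => simp at hX
    | [a], hX => simp at hX
    | a :: b :: Y, hX =>
      have hY : Y.length = 2 * p + 1 := by
        simp only [List.length_cons] at hX
        omega
      rw [val_cons, ih Y hY]
      have htm : ∀ i, tm (a :: b :: Y) (i + 2) = tm Y i := fun i => rfl
      have h0 : tm (a :: b :: Y) 0 = a.2 := rfl
      have h1 : tm (a :: b :: Y) 1 = b.2 := rfl
      constructor
      · rintro ⟨⟨ha, hb, hab⟩, ⟨c, Z, hcZ, hbc⟩, hV, hA⟩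
        refine ⟨?_, ?_⟩
        · intro i hi
          rcases Nat.eq_zero_or_pos i with h | h
          · subst h
            refine ⟨hab, ?_⟩
            show b.2 < tm Y 0
            rw [hcZ]
            exact hbc
          · obtain ⟨j, rfl⟩ : ∃ j, i = j + 1 := ⟨i - 1, by omega⟩
            exact hV j (by omega)
        · intro i hi
          match i, hi with
          | 0, _ => simpa using ha
          | 1, _ => simpa using hb
          | i + 2, hi =>
            have h := hA i (by omega)
            rw [List.getD_cons_succ, List.getD_cons_succ, h]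
            congr 1
            apply propext
            omega
      · rintro ⟨hV, hA⟩
        have hV0 := hV 0 (by omega)
        have hb0 := hA 0 (by omega)
        have hb1 := hA 1 (by omega)
        refine ⟨⟨by simpa using hb0, by simpa using hb1, hV0.1⟩, ?_, ?_, ?_⟩
        · rcases Y with _ | ⟨c, Z⟩
          · simp at hY
          · exact ⟨c, Z, rfl, hV0.2⟩
        · intro i hi
          exact hV (i + 1) (by omega)
        · intro i hi
          have h := hA (i + 2) (by omega)
          rw [List.getD_cons_succ, List.getD_cons_succ] at h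
          rw [h]
          congr 1
          apply propext
          omega

end VALI_

theorem pVALI : T_VALI :=
  ⟨fun X hX => VALI_.len X.length X le_rfl hX, fun X p hX => VALI_.idx p X hX⟩

end Frz.Comb
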