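import Pool.Agent.Frz.Comb.ADD
import Pool.Agent.Frz.Comb.CCB
import Pool.Agent.Frz.Comb.EHF
import Pool.Agent.Frz.Comb.POS
import Pool.Agent.Frz.Comb.RR
import Pool.Agent.Frz.Comb.ABEL
import Pool.Agent.Frz.Comb.VALI
import Pool.Agent.Frz.Comb.LEGI
import Pool.Agent.Frz.Comb.CORE
import Pool.Agent.Frz.Comb.DAN
import Pool.Agent.Frz.Comb.LAST
import Pool.Agent.Frz.Comb.FIN
import Pool.Agent.Frz.Comb.CVX
import Pool.Agent.Frz.Comb.PART
import Pool.Agent.Frz.Comb.MIN
import Pool.Agent.Frz.Comb.VV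
import Pool.Agent.Frz.Comb.LINK
import Pool.Agent.Frz.Comb.CONVSPL
import Pool.Agent.Frz.Comb.AA
import Pool.Agent.Frz.Comb.FINAL

/-! The combinatorial side of MP_66bb51_pr: everything is reduced to the analytic statement `T_W`. -/

set_option autoImplicit false

namespace Frz.Comb

theorem conv : T_CONV := by
  have hV := pVALI
  have hL := pLEGI hV
  have hF := pFIN hV
  have hD := pDAN hV hL pCORE
  have hC := pCVX hV hF hD pLAST
  have hP := pPART hV hF
  have hM := pMIN hV
  have hVV := pVV hM hP pADD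
  exact pCONV hC (pLINK hV hP hVV)

theorem comb (hW : T_W) : T_FINAL :=
  pFINAL (pEHF pCCB) pPOS (pRR pADD) (pAA (pSPL pADD) pCCB (pRR pADD) pABEL conv hW)

end Frz.Comb
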