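import Pool.Agent.Frz.Comb.Prob

/-!
# MP_66bb51_pr (uniform freezing): definitions, combinatorial side
-/

set_option autoImplicit false

namespace Frz.Comb

open Finset

/-! ## Counting histories -/

/-- The number of histories (sequences of choices) of the word when there are `k` active
vertices. -/
def NN : List Bool → ℕ → ℕ
  | [], _ => 1
  | true :: y, k => k * NN y (k + 1)
  | false :: y, k => k * NN y (k - 1)

/-- The number of histories in which no depth exceeds its bound; `D` is the multiset of the
differences (bound minus depth) of the active vertices. -/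
def cc : List Bool → Multiset ℕ → ℕ
  | [], _ => 1
  | true :: y, D => (D.map (fun b => if b = 0 then 0 else cc y ((b - 1) ::ₘ D))).sum
  | false :: y, D => (D.map (fun b => cc y (D.erase b))).sum

/-- The number of histories of the word with height at most `k - 1`. -/
def CC (k : ℕ) (x : List Bool) : ℕ := if k = 0 then 0 else cc x {k - 1}

/-- All ways to split a word into two complementary subwords. -/
def spl {α : Type} : List α → List (List α × List α)
  | [] => [([], [])]
  | c :: y => (spl y).map (fun ab => (c :: ab.1, ab.2)) ++
      (spl y).map (fun ab => (ab.1, c :: ab.2))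

/-- The number of histories of the two sides such that the first side has `p` letters `+1`. -/
def Np (y : List Bool) (p : ℕ) : ℕ :=
  ((spl y).map (fun ab => if ab.1.count true = p then NN ab.1 1 * NN ab.2 1 else 0)).sum

/-- `P(H(R_n) ≤ k - 1)`. -/
noncomputable def FF (k n : ℕ) : ℝ := (CC k (List.replicate n true) : ℝ) / (n.factorial : ℝ)

/-! ## Sequences of separators and leaves -/

/-- `(true, t)` is a separator with time `t`, `(false, t)` is a leaf with time `t`. -/
abbrev El := Bool × ℕ

/-- neighbours: a separator and a leaf, the separator is earlier -/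
def Rel (a b : El) : Prop :=
  (a.1 = true ∧ b.1 = false ∧ a.2 < b.2) ∨ (a.1 = false ∧ b.1 = true ∧ b.2 < a.2)

/-- a valid side: separators and leaves alternate, it begins and ends with a leaf, and the separators
are earlier than their neighbours -/
def Val (X : List El) : Prop :=
  X.IsChain Rel ∧ (∃ t, X.head? = some (false, t)) ∧ (∃ t, X.getLast? = some (false, t))

/-- the elements other than the leaf `(false, top)` -/
def fin (top : ℕ) (X : List El) : List El := X.filter (fun e => decide (e ≠ (false, top)))

/-- the valid sides with the labels `a` (the other leaves are `(false, top)`) -/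
def VS (top : ℕ) (a : List El) : Set (List El) := {X | Val X ∧ (fin top X).Perm a}

/-- the pairs of valid sides with the labels `w` -/
def Pr (top : ℕ) (w : List El) : Set (List El × List El) :=
  {P | Val P.1 ∧ Val P.2 ∧ (fin top (P.1 ++ P.2)).Perm w}

/-- the same with lengths `a`, `b` -/
def Prs (top : ℕ) (w : List El) (a b : ℕ) : Set (List El × List El) :=
  {P | P ∈ Pr top w ∧ P.1.length = a ∧ P.2.length = b}

/-- exchange of tails -/
def sw (d k : ℕ) (P : List El × List El) : List El × List El :=
  (P.1.take k ++ P.2.drop (k + d), P.2.take (k + d) ++ P.1.drop k)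

/-- a legal cut of shift `d` -/
def Leg (d k : ℕ) (P : List El × List El) : Prop :=
  k ≤ P.1.length ∧ k + d ≤ P.2.length ∧ Val (sw d k P).1 ∧ Val (sw d k P).2

/-- the time at the position `i` -/
def tm (X : List El) (i : ℕ) : ℕ := (X.getD i (true, 0)).2

/-- index form of validity: odd positions are earlier than their neighbours -/
def VF (p : ℕ) (u : ℕ → ℕ) : Prop := ∀ i < p, u (2 * i + 1) < u (2 * i) ∧ u (2 * i + 1) < u (2 * i + 2)

/-- index form of a legal cut of shift `2 * e` -/
def LF (p q e k : ℕ) (u v : ℕ → ℕ) : Prop :=
  k ≤ 2 * p + 1 ∧ k + 2 * e ≤ 2 * q + 1 ∧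
  (k % 2 = 1 → (k + 2 * e < 2 * q + 1 → v (k + 2 * e) < u (k - 1)) ∧
    (k < 2 * p + 1 → u k < v (k + 2 * e - 1))) ∧
  (k % 2 = 0 → (1 ≤ k → u (k - 1) < v (k + 2 * e)) ∧
    (1 ≤ k + 2 * e → v (k + 2 * e - 1) < u k))

/-- the labels of a word: letter and position -/
def lab (y : List Bool) : List El := y.zipIdx

end Frz.Comb
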