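import Mathlib

/-!
# MP_66bb51_pr (uniform freezing): the definitions used by the statement
-/

set_option autoImplicit false

namespace Frz.Comb

open Finset

/-! ## The problem -/

/-- `S_j(x) = 1 + x_1 + ... + x_j`; the letter `true` is `+1`, the letter `false` is `-1`. -/
def S (x : List Bool) (j : ℕ) : ℤ :=
  1 + ((x.take j).map (fun b => if b = true then (1 : ℤ) else -1)).sum

/-- The set `𝕏_n`: the words with `n` letters `+1` such that `S_j ≠ 0` for `1 ≤ j < m`
(that is `τ(x) ≥ m`, where `m` is the length of the word). -/
def XX (n : ℕ) : Set (List Bool) :=
  {x | x.count true = n ∧ ∀ j, 1 ≤ j → j < x.length → S x j ≠ 0}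

/-- The expected height of the final tree when the current tree is `T`, its set of active vertices
is `A` and the letters `x` remain to be read. A vertex is the list of the labels of the edges on the
path from the root `[]` to it; a child attached when the tree has `k` vertices gets an edge with the
label `k`. The active vertex is chosen uniformly in `A`. -/
noncomputable def EH : List Bool → Finset (List ℕ) → Finset (List ℕ) → ℝ
  | [], T, _ => ((T.sup List.length : ℕ) : ℝ)
  | true :: x, T, A =>
      (∑ v ∈ A, EH x (insert (v ++ [T.card]) T) (insert (v ++ [T.card]) A)) / (A.card : ℝ)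
  | false :: x, T, A => (∑ v ∈ A, EH x T (A.erase v)) / (A.card : ℝ)

/-- The expected height of `T(x)`; at the beginning the tree is a single active root. -/
noncomputable def expHeight (x : List Bool) : ℝ := EH x {[]} {[]}

end Frz.Comb
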