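import Pool.Agent.Frz.Comb.Defs

/-!
# MP_66bb51_pr: exact targets, combinatorial side
-/

set_option autoImplicit false

namespace Frz.Comb

open Finset

/-! ## Histories -/

/-- ADD: histories of the union of two groups of active vertices. -/
def T_ADD : Prop :=
  (∀ (y : List Bool) (j k : ℕ),
    NN y (j + k) = ((spl y).map (fun ab => NN ab.1 j * NN ab.2 k)).sum) ∧
  (∀ (y : List Bool) (D D' : Multiset ℕ),
    cc y (D + D') = ((spl y).map (fun ab => cc ab.1 D * cc ab.2 D')).sum)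

/-- CCB: the counts `cc` are monotone, and equal to `NN` for large bounds. -/
def T_CCB : Prop :=
  (∀ (y : List Bool) (D : Multiset ℕ), cc y D ≤ cc y (D.map (fun b => b + 1))) ∧
  (∀ (y : List Bool) (D : Multiset ℕ), cc y D ≤ NN y (Multiset.card D)) ∧
  (∀ (y : List Bool) (D : Multiset ℕ), (∀ b ∈ D, y.count true ≤ b) →
    cc y D = NN y (Multiset.card D))

/-- EHF: the formula for the expected height. -/
def T_EHF : Prop := ∀ (x : List Bool) (M : ℕ), x.count true ≤ M →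
  expHeight x * (NN x 1 : ℝ) = ∑ h ∈ range M, ((NN x 1 : ℝ) - (CC (h + 1) x : ℝ))

/-- POS: the words of `𝕏_n` have histories. -/
def T_POS : Prop := ∀ (n : ℕ) (x : List Bool), x ∈ XX n → 0 < NN x 1

/-- the recursion for the height of the random recursive tree -/
def Rec (F : ℕ → ℕ → ℝ) : Prop :=
  (∀ n, F 0 n = 0) ∧ (∀ k, F (k + 1) 0 = 1) ∧
  ∀ k n : ℕ, ((n : ℝ) + 1) * F (k + 1) (n + 1) = ∑ i ∈ range (n + 1), F (k + 1) i * F k (n - i)

/-- RR: the all-plus word. -/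
def T_RR : Prop := Rec FF ∧ ∀ n, NN (List.replicate n true) 1 = n.factorial

/-- ABEL: summation by parts. -/
def T_ABEL : Prop := ∀ (c M : ℕ) (A B F G : ℕ → ℝ), c ≤ M →
  (∀ h, 0 ≤ A h) → Monotone A → (∀ h, 0 ≤ G h) → Monotone G →
  (∀ j, c ≤ j → j ≤ M → ∑ h ∈ Ico j M, A h ≤ ∑ h ∈ Ico j M, F h) →
  (∀ j, c ≤ j → j ≤ M → ∑ h ∈ Ico j M, B h ≤ ∑ h ∈ Ico j M, G h) →
  ∑ h ∈ Ico c M, A h * B h ≤ ∑ h ∈ Ico c M, F h * G h

/-! ## The exchange of tails -/

/-- VALI: index form of validity. -/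
def T_VALI : Prop :=
  (∀ X : List El, Val X → X.length = 2 * (X.countP (fun e => e.1)) + 1) ∧
  ∀ (X : List El) (p : ℕ), X.length = 2 * p + 1 →
    (Val X ↔ (VF p (tm X) ∧ ∀ i < 2 * p + 1, (X.getD i (true, 0)).1 = decide (i % 2 = 1)))

/-- LEGI: index form of legality. -/
def T_LEGI : Prop := ∀ (X Y : List El) (p q e k : ℕ), Val X → Val Y → X.length = 2 * p + 1 →
  Y.length = 2 * q + 1 → (Leg (2 * e) k (X, Y) ↔ LF p q e k (tm X) (tm Y))

/-- CORE: exchange at the last legal cut of shift `q + 1 - p` keeps the absence of legal cuts of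
shift one (arithmetic form). -/
def T_CORE : Prop := ∀ (p q : ℕ) (u v : ℕ → ℕ), VF p u → VF q v → 1 ≤ p → 1 ≤ q →
  (∀ j, ¬ LF p q 1 j u v) → p + 2 ≤ q ∧ (∃ k, LF p q (q + 1 - p) k u v) ∧
  ∀ k, LF p q (q + 1 - p) k u v → (∀ j, k < j → ¬ LF p q (q + 1 - p) j u v) →
    ∀ j, ¬ LF (p - 1) (q + 1) 1 j
      (fun i => if i < k then u i else v (i + 2 * (q + 1 - p)))
      (fun i => if i < k + 2 * (q + 1 - p) then v i else u (i - 2 * (q + 1 - p)))

/-- DAN: the same for lists. -/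
def T_DAN : Prop := ∀ (P : List El × List El) (p q : ℕ), Val P.1 → Val P.2 →
  P.1.length = 2 * p + 1 → P.2.length = 2 * q + 1 → 1 ≤ p → 1 ≤ q → (∀ j, ¬ Leg 2 j P) →
  p + 2 ≤ q ∧ (∃ k, Leg (2 * (q + 1 - p)) k P) ∧
  ∀ k, Leg (2 * (q + 1 - p)) k P → (∀ j, k < j → ¬ Leg (2 * (q + 1 - p)) j P) →
    ∀ j, ¬ Leg 2 j (sw (2 * (q + 1 - p)) k P)

/-- LAST: exchange at the last legal cut is an involution. -/
def T_LAST : Prop := ∀ (d k : ℕ) (P : List El × List El), Val P.1 → Val P.2 → Leg d k P →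
  (∀ j, k < j → ¬ Leg d j P) →
  Leg d k (sw d k P) ∧ (∀ j, k < j → ¬ Leg d j (sw d k P)) ∧ sw d k (sw d k P) = P ∧
  (sw d k P).1.length = P.2.length - d ∧ (sw d k P).2.length = P.1.length + d ∧
  ((sw d k P).1 ++ (sw d k P).2).Perm (P.1 ++ P.2)

/-- FIN: finiteness. -/
def T_FIN : Prop := ∀ (top : ℕ) (w : List El), (∀ a b, (Prs top w a b).Finite) ∧
  (Pr top w).Finite ∧ (VS top w).Finite

/-- CVX: the numbers of pairs are symmetric and convex. -/
def T_CVX : Prop := ∀ (top : ℕ) (w : List El) (t : ℕ), w.countP (fun e => e.1) = t →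
  (∀ p ≤ t, (Prs top w (2 * p + 1) (2 * (t - p) + 1)).ncard =
    (Prs top w (2 * (t - p) + 1) (2 * p + 1)).ncard) ∧
  ∀ p, 1 ≤ p → p + 1 ≤ t → 2 * (Prs top w (2 * p + 1) (2 * (t - p) + 1)).ncard ≤
    (Prs top w (2 * (p - 1) + 1) (2 * (t - (p - 1)) + 1)).ncard +
    (Prs top w (2 * (p + 1) + 1) (2 * (t - (p + 1)) + 1)).ncard

/-! ## Sequences and histories -/

/-- PART: the pairs of sides are distributed over the splits of the labels. -/
def T_PART : Prop := ∀ (top : ℕ) (w : List El), w.Nodup → (∀ e ∈ w, e.2 < top) →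
  (Pr top w).ncard = ((spl w).map (fun ab => (VS top ab.1).ncard * (VS top ab.2).ncard)).sum ∧
  ∀ p : ℕ, {P | P ∈ Pr top w ∧ P.1.countP (fun e => e.1) = p}.ncard =
    ((spl w).map (fun ab => if ab.1.countP (fun e => e.1) = p then
      (VS top ab.1).ncard * (VS top ab.2).ncard else 0)).sum

/-- MIN: removing the first label. -/
def T_MIN : Prop := ∀ (top t : ℕ) (a : List El), (∀ e ∈ a, t < e.2) → (∀ e ∈ a, e.2 < top) →
  t < top →
  (VS top []).ncard = 1 ∧
  (VS top ((true, t) :: a)).ncard = (Pr top a).ncard ∧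
  (VS top [(false, t)]).ncard = 1 ∧ (a ≠ [] → (VS top ((false, t) :: a)).ncard = 0)

/-- VV: the number of valid sides is the number of histories. -/
def T_VV : Prop := ∀ (top : ℕ) (a : List El), (a.map Prod.snd).Pairwise (· < ·) →
  (∀ e ∈ a, e.2 < top) → (VS top a).ncard = NN (a.map Prod.fst) 1

/-- LINK: the number of histories of the pairs of sides. -/
def T_LINK : Prop := ∀ (y : List Bool) (p : ℕ), p ≤ y.count true →
  (lab y).countP (fun e => e.1) = y.count true ∧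
  Np y p = (Prs y.length (lab y) (2 * p + 1) (2 * (y.count true - p) + 1)).ncard

/-- CONV: the law of the split is symmetric and convex. -/
def T_CONV : Prop := ∀ (y : List Bool),
  (∀ p ≤ y.count true, Np y p = Np y (y.count true - p)) ∧
  ∀ p, 1 ≤ p → p + 1 ≤ y.count true → 2 * Np y p ≤ Np y (p - 1) + Np y (p + 1)

/-! ## Assembly -/

/-- W: the analytic side. -/
def T_W : Prop := ∀ (F : ℕ → ℕ → ℝ), Rec F → ∀ (m c M : ℕ) (w : ℕ → ℝ), m + 1 ≤ M →
  (∀ i ≤ m, w i = w (m - i)) → (∀ i, 1 ≤ i → i + 1 ≤ m → 2 * w i ≤ w (i - 1) + w (i + 1)) →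
  ((m : ℝ) + 1) * ∑ i ∈ range (m + 1),
      w i * ∑ h ∈ Ico c M, (F (h + 1) i * F h (m - i) + F (h + 1) (m - i) * F h i) ≤
    (∑ i ∈ range (m + 1), w i) * ∑ i ∈ range (m + 1),
      ∑ h ∈ Ico c M, (F (h + 1) i * F h (m - i) + F (h + 1) (m - i) * F h i)

/-- STEP1: the height of a word beginning with `+1`, in terms of the two sides. -/
def T_SPL : Prop := ∀ (k : ℕ) (y : List Bool),
  CC (k + 1) (true :: y) = ((spl y).map (fun ab => CC (k + 1) ab.1 * CC k ab.2)).sum ∧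
  (∀ ab ∈ spl y, ab.1.count true + ab.2.count true = y.count true ∧
    ab.1.length + ab.2.length = y.length) ∧
  ∑ p ∈ range (y.count true + 1), Np y p = NN (true :: y) 1

/-- AA: comparison of the heights in the increasing convex order. -/
def T_AA : Prop := ∀ (x : List Bool) (c M : ℕ), c ≤ M → x.count true ≤ M →
  ∑ h ∈ Ico c M, (CC (h + 1) x : ℝ) ≤ NN x 1 * ∑ h ∈ Ico c M, FF (h + 1) (x.count true)

/-- FINAL: the theorem. -/
def T_FINAL : Prop := ∀ (n : ℕ), ∀ x ∈ XX n, expHeight (List.replicate n true) ≤ expHeight x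

end Frz.Comb
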