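import Pool.Agent.Frz.Comb.Targets

/-!
# MP_66bb51_pr: VV, valid sides and histories
-/

set_option autoImplicit false

namespace Frz.Comb

open Finset

namespace VV_

lemma vs_nil (top : ℕ) : VS top [] = {[(false, top)]} := by
  ext X
  rw [Set.mem_singleton_iff]
  constructor
  · rintro ⟨⟨h1, ⟨t, h2⟩, -⟩, h4⟩
    have h5 : fin top X = [] := List.perm_nil.1 h4
    have h6 : ∀ e ∈ X, e = (false, top) := by
      intro e he
      by_contra hne
      have : e ∈ fin top X := by
        unfold fin
        rw [List.mem_filter]
        exact ⟨he, by simpa using hne⟩
      rw [h5] at this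
      simp at this
    cases X with
    | nil => simp at h2
    | cons e X =>
      have he := h6 e (by simp)
      subst he
      cases X with
      | nil => rfl
      | cons f X =>
        exfalso
        have hf := h6 f (by simp)
        subst hf
        rw [List.isChain_cons_cons] at h1
        rcases h1.1 with h | h
        · exact absurd h.1 (by simp)
        · exact absurd h.2.1 (by simp)
  · rintro rfl
    refine ⟨⟨by simp, ⟨top, by simp⟩, ⟨top, by simp⟩⟩, ?_⟩
    simp [fin]

lemma spl_map {α β : Type} (f : α → β) (l : List α) :
    spl (l.map f) = (spl l).map (fun ab => (ab.1.map f, ab.2.map f)) := by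
  induction l with
  | nil => simp [spl]
  | cons c l ih =>
    simp only [List.map_cons, spl, ih, List.map_append, List.map_map]
    rfl

lemma spl_sub {α : Type} (l : List α) : ∀ ab ∈ spl l, ab.1.Sublist l ∧ ab.2.Sublist l := by
  induction l with
  | nil =>
    intro ab h
    simp only [spl, List.mem_singleton] at h
    subst h
    exact ⟨List.Sublist.slnil, List.Sublist.slnil⟩
  | cons c l ih =>
    intro ab h
    simp only [spl, List.mem_append, List.mem_map] at h
    rcases h with ⟨ab', h1, rfl⟩ | ⟨ab', h1, rfl⟩
    · exact ⟨(ih ab' h1).1.cons_cons c, (ih ab' h1).2.cons c⟩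
    · exact ⟨(ih ab' h1).1.cons c, (ih ab' h1).2.cons_cons c⟩

end VV_

open VV_ in
theorem pVV (hMIN : T_MIN) (hPART : T_PART) (hADD : T_ADD) : T_VV := by
  intro top
  have key : ∀ (n : ℕ) (a : List El), a.length ≤ n → (a.map Prod.snd).Pairwise (· < ·) →
      (∀ e ∈ a, e.2 < top) → (VS top a).ncard = NN (a.map Prod.fst) 1 := by
    intro n
    induction n with
    | zero =>
      intro a ha _ _
      have : a = [] := List.length_eq_zero_iff.1 (by omega)
      subst this
      rw [vs_nil, Set.ncard_singleton]
      simp [NN]
    | succ n ih =>
      intro a ha hp hb
      cases a with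
      | nil =>
        rw [vs_nil, Set.ncard_singleton]
        simp [NN]
      | cons e a =>
        obtain ⟨c, t⟩ := e
        rw [List.map_cons, List.pairwise_cons] at hp
        have h1 : ∀ e ∈ a, t < e.2 := fun e he => hp.1 e.2 (List.mem_map_of_mem he)
        have h2 : ∀ e ∈ a, e.2 < top := fun e he => hb e (List.mem_cons_of_mem _ he)
        have h3 : t < top := hb (c, t) (by simp)
        have hlen : a.length ≤ n := by
          simp only [List.length_cons] at ha
          omega
        obtain ⟨-, m2, m3, m4⟩ := hMIN top t a h1 h2 h3
        cases c with
        | false =>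
          by_cases hn : a = []
          · subst hn
            rw [m3]
            simp [NN]
          · rw [m4 hn]
            cases a with
            | nil => exact absurd rfl hn
            | cons f a =>
              obtain ⟨c', t'⟩ := f
              cases c' <;> simp [NN]
        | true =>
          have hnd : a.Nodup := by
            have h4 : (a.map Prod.snd).Nodup := by
              unfold List.Nodup
              exact hp.2.imp (fun h => h.ne)
            exact List.Nodup.of_map _ h4
          rw [m2, (hPART top a hnd h2).1]
          have h5 : (spl a).map (fun ab => (VS top ab.1).ncard * (VS top ab.2).ncard) =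
              (spl a).map (fun ab => NN (ab.1.map Prod.fst) 1 * NN (ab.2.map Prod.fst) 1) := by
            apply List.map_congr_left
            intro ab hab
            obtain ⟨s1, s2⟩ := spl_sub a ab hab
            rw [ih ab.1 (s1.length_le.trans hlen) (hp.2.sublist (s1.map _))
              (fun e he => h2 e (s1.subset he)),
              ih ab.2 (s2.length_le.trans hlen) (hp.2.sublist (s2.map _))
              (fun e he => h2 e (s2.subset he))]
          rw [h5]
          show _ = 1 * NN (a.map Prod.fst) (1 + 1)
          rw [one_mul, hADD.1, spl_map, List.map_map]
          rfl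
  intro a h1 h2
  exact key a.length a le_rfl h1 h2

end Frz.Comb
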